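import Mathlib

/-!
# PROJECT SE: the sheets `y_a^m = F_a`, `v_i^m = G_i`, `∏ y_a = κ ∏ v_i`
-/

set_option autoImplicit false

open Finset

noncomputable section

namespace SE

variable {ι κ : Type} [Fintype ι] [Fintype κ]

/-- The set of the `(y, v)` with `y_a^m = F_a`, `v_i^m = G_i`, `∏ y_a = k ∏ v_i`. -/
def sheet (m : ℕ) (k : ℂ) (F : ι → ℂ) (G : κ → ℂ) : Set ((ι → ℂ) × (κ → ℂ)) :=
  {p | (∀ a, p.1 a ^ m = F a) ∧ (∀ i, p.2 i ^ m = G i) ∧ ∏ a, p.1 a = k * ∏ i, p.2 i}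

/-- The number of the sheets. -/
def nsheet (ι κ : Type) [Fintype ι] [Fintype κ] (m : ℕ) : ℕ :=
  (sheet (ι := ι) (κ := κ) m 1 (fun _ => 1) (fun _ => 1)).ncard

lemma roots_finite {m : ℕ} (hm : m ≠ 0) (c : ℂ) : {z : ℂ | z ^ m = c}.Finite := by
  have h : {z : ℂ | z ^ m = c} ⊆ ((Polynomial.X ^ m - Polynomial.C c : Polynomial ℂ).roots.toFinset : Set ℂ) := by
    intro z hz
    have hz' : z ^ m = c := hz
    rw [Finset.mem_coe, Multiset.mem_toFinset, Polynomial.mem_roots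
      (Polynomial.X_pow_sub_C_ne_zero (Nat.pos_of_ne_zero hm) c)]
    simp [hz']
  exact (Finset.finite_toSet _).subset h

theorem sheet_finite {m : ℕ} (hm : m ≠ 0) (k : ℂ) (F : ι → ℂ) (G : κ → ℂ) :
    (sheet m k F G).Finite := by
  have h1 : (Set.pi Set.univ fun a : ι => {z : ℂ | z ^ m = F a}).Finite :=
    Set.Finite.pi fun a => roots_finite hm _
  have h2 : (Set.pi Set.univ fun a : κ => {z : ℂ | z ^ m = G a}).Finite :=
    Set.Finite.pi fun a => roots_finite hm _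
  refine (h1.prod h2).subset ?_
  rintro ⟨y, v⟩ ⟨h3, h4, _⟩
  exact ⟨fun a _ => h3 a, fun a _ => h4 a⟩

theorem sheet_nonempty [Nonempty κ] {m : ℕ} (hm : m ≠ 0) {k : ℂ} {F : ι → ℂ} {G : κ → ℂ}
    (hk : k ≠ 0) (hG : ∀ i, G i ≠ 0) (h : ∏ a, F a = k ^ m * ∏ i, G i) :
    (sheet m k F G).Nonempty := by
  classical
  choose y hy using fun a => IsAlgClosed.exists_pow_nat_eq (F a) (Nat.pos_of_ne_zero hm)
  choose v hv using fun i => IsAlgClosed.exists_pow_nat_eq (G i) (Nat.pos_of_ne_zero hm)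
  have hv0 : ∀ i, v i ≠ 0 := fun i h0 => hG i (by rw [← hv i, h0, zero_pow hm])
  have hP : ∏ i, v i ≠ 0 := Finset.prod_ne_zero_iff.mpr fun i _ => hv0 i
  obtain ⟨i0⟩ := ‹Nonempty κ›
  set e : ℂ := (∏ a, y a) / (k * ∏ i, v i) with he
  have hem : e ^ m = 1 := by
    rw [he, div_pow, mul_pow, ← Finset.prod_pow, ← Finset.prod_pow]
    simp_rw [hy, hv]
    rw [h, div_self]
    exact mul_ne_zero (pow_ne_zero _ hk) (Finset.prod_ne_zero_iff.mpr fun i _ => hG i)
  refine ⟨⟨y, Function.update v i0 (e * v i0)⟩, hy, fun i => ?_, ?_⟩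
  · by_cases hi : i = i0
    · subst hi
      simp only [Function.update_self]
      rw [mul_pow, hem, one_mul, hv]
    · simp only [Function.update_of_ne hi]
      exact hv i
  · simp only
    rw [Finset.prod_update_of_mem (Finset.mem_univ i0)]
    have h3 : (∏ i, v i) = v i0 * ∏ x ∈ univ \ {i0}, v x := by
      rw [Finset.sdiff_singleton_eq_erase, Finset.mul_prod_erase univ v (Finset.mem_univ i0)]
    have h4 : k * (e * v i0 * ∏ x ∈ univ \ {i0}, v x) = e * (k * ∏ i, v i) := by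
      rw [h3]; ring
    rw [h4, he, div_mul_cancel₀]
    exact mul_ne_zero hk hP

theorem nsheet_pos [Nonempty κ] {m : ℕ} (hm : m ≠ 0) : 0 < nsheet ι κ m := by
  unfold nsheet
  rw [Set.ncard_pos (sheet_finite hm _ _ _)]
  exact sheet_nonempty hm one_ne_zero (fun _ => one_ne_zero) (by simp)

theorem sheet_ncard [Nonempty κ] {m : ℕ} (hm : m ≠ 0) {k : ℂ} {F : ι → ℂ} {G : κ → ℂ}
    (hk : k ≠ 0) (hF : ∀ a, F a ≠ 0) (hG : ∀ i, G i ≠ 0) (h : ∏ a, F a = k ^ m * ∏ i, G i) :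
    (sheet m k F G).ncard = nsheet ι κ m := by
  obtain ⟨⟨y0, v0⟩, h1, h2, h3⟩ := sheet_nonempty hm hk hG h
  simp only at h1 h2 h3
  have hy0 : ∀ a, y0 a ≠ 0 := fun a h0 => hF a (by rw [← h1 a, h0, zero_pow hm])
  have hv0 : ∀ i, v0 i ≠ 0 := fun i h0 => hG i (by rw [← h2 i, h0, zero_pow hm])
  have hP : ∏ i, v0 i ≠ 0 := Finset.prod_ne_zero_iff.mpr fun i _ => hv0 i
  have hQ : ∏ a, y0 a ≠ 0 := Finset.prod_ne_zero_iff.mpr fun i _ => hy0 i
  let f : (ι → ℂ) × (κ → ℂ) → (ι → ℂ) × (κ → ℂ) := fun p =>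
    (fun a => p.1 a * y0 a, fun i => p.2 i * v0 i)
  have hf : Function.Injective f := by
    rintro ⟨a, b⟩ ⟨c, d⟩ hfe
    simp only [f, Prod.mk.injEq] at hfe
    ext i
    · exact mul_right_cancel₀ (hy0 i) (congrFun hfe.1 i)
    · exact mul_right_cancel₀ (hv0 i) (congrFun hfe.2 i)
  have himg : sheet m k F G = f '' sheet m 1 (fun _ => 1) (fun _ => 1) := by
    ext ⟨y, v⟩
    constructor
    · rintro ⟨g1, g2, g3⟩
      simp only at g1 g2 g3
      refine ⟨(fun a => y a / y0 a, fun i => v i / v0 i), ⟨fun a => ?_, fun i => ?_, ?_⟩, ?_⟩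
      · simp only
        rw [div_pow, g1, h1, div_self (hF a)]
      · simp only
        rw [div_pow, g2, h2, div_self (hG i)]
      · simp only [Finset.prod_div_distrib]
        rw [g3, h3, one_mul, mul_div_mul_left _ _ hk]
      · simp only [f]
        ext a
        · simp only
          rw [div_mul_cancel₀ _ (hy0 a)]
        · simp only
          rw [div_mul_cancel₀ _ (hv0 a)]
    · rintro ⟨⟨a, b⟩, ⟨g1, g2, g3⟩, g4⟩
      simp only at g1 g2 g3
      simp only [f, Prod.mk.injEq] at g4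
      obtain ⟨rfl, rfl⟩ := g4
      refine ⟨fun a' => ?_, fun i => ?_, ?_⟩
      · simp only
        rw [mul_pow, g1, h1, one_mul]
      · simp only
        rw [mul_pow, g2, h2, one_mul]
      · simp only [Finset.prod_mul_distrib]
        rw [g3, h3]
        ring
  rw [himg, Set.ncard_image_of_injective _ hf, nsheet]

end SE
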