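import Pool.Agent.Lib.SE.S2.Det
import Pool.Agent.Lib.SE.S2.NullC

/-!
# PROJECT SE: the derivatives of `u_j`, `U_n`, `t_i` with respect to `x`, the good open set
-/

set_option autoImplicit false

open Finset

noncomputable section

namespace SE

variable {r : ℕ}

/-- The linear form `∑ c_a dx_a`. -/
def lf (c : Fin r → ℂ) : (Fin r → ℂ) →L[ℂ] ℂ :=
  ∑ a, c a • (ContinuousLinearMap.proj a : (Fin r → ℂ) →L[ℂ] ℂ)

lemma lf_apply (c v : Fin r → ℂ) : lf c v = ∑ a, c a * v a := by
  simp [lf]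

lemma lf_single (c : Fin r → ℂ) (a : Fin r) : lf c (Pi.single a 1) = c a := by
  rw [lf_apply]
  simp [Pi.single_apply]

lemma hasFDerivAt_ux (s : Fin (r + 1) → ℂ) (x : Fin r → ℂ) (j : Fin (r + 1)) :
    HasFDerivAt (fun x => ux s x j) (lf (dux s x j)) x := by
  have h1 : ∀ a ∈ (univ : Finset (Fin r)), HasFDerivAt (fun x : Fin r → ℂ => s j - x a)
      (-(ContinuousLinearMap.proj a : (Fin r → ℂ) →L[ℂ] ℂ)) x := by
    intro a _
    exact ((ContinuousLinearMap.proj a : (Fin r → ℂ) →L[ℂ] ℂ).hasFDerivAt).const_sub (s j)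
  have h2 := HasFDerivAt.finsetProd h1
  have h3 := h2.mul_const ((Fd s j)⁻¹)
  have h4 : (fun x : Fin r → ℂ => ux s x j) =
      fun x => (∏ a, (s j - x a)) * (Fd s j)⁻¹ := by
    funext x
    rw [ux, div_eq_mul_inv]
  rw [h4]
  refine h3.congr_fderiv ?_
  ext v
  simp only [lf_apply, dux, _root_.sum_apply, smul_eq_mul,
    _root_.smul_apply, _root_.neg_apply, ContinuousLinearMap.proj_apply]
  rw [Finset.mul_sum]
  refine Finset.sum_congr rfl fun a _ => ?_
  ring

lemma hasFDerivAt_Ux (s : Fin (r + 1) → ℂ) (x : Fin r → ℂ) (n : ℕ) :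
    HasFDerivAt (fun x => Ux s x n) (lf (dUx s x n)) x := by
  have h1 : ∀ j ∈ (univ : Finset (Fin (r + 1))),
      HasFDerivAt (fun x : Fin r → ℂ => if j.1 ≤ n then ux s x j else 0)
      (if j.1 ≤ n then lf (dux s x j) else 0) x := by
    intro j _
    split_ifs
    · exact hasFDerivAt_ux s x j
    · exact hasFDerivAt_const _ _
  have h2 := HasFDerivAt.fun_sum h1
  refine h2.congr_fderiv ?_
  ext v
  simp only [lf_apply, dUx, _root_.sum_apply]
  simp_rw [Finset.sum_mul]
  rw [Finset.sum_comm]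
  refine Finset.sum_congr rfl fun j _ => ?_
  split_ifs with h
  · rw [lf_apply]
  · simp

lemma hasFDerivAt_tx (s : Fin (r + 1) → ℂ) (x : Fin r → ℂ) (i : Fin r)
    (h : Ux s x (i + 1) ≠ 0) :
    HasFDerivAt (fun x => tx s x i) (lf (dtx s x i)) x := by
  have h1 := (hasFDerivAt_Ux s x i).mul
    ((hasDerivAt_inv h).comp_hasFDerivAt x (hasFDerivAt_Ux s x (i + 1)))
  have h2 : (fun x => tx s x i) = (fun x => Ux s x i) * ((fun y => y⁻¹) ∘ fun x => Ux s x (i + 1)) := by
    funext y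
    simp only [tx, Pi.mul_apply, Function.comp_apply, div_eq_mul_inv]
  rw [h2]
  refine h1.congr_fderiv ?_
  ext v
  simp only [_root_.add_apply, _root_.smul_apply, lf_apply, dtx, smul_eq_mul,
    Function.comp_apply, Finset.mul_sum]
  rw [← Finset.sum_add_distrib]
  refine Finset.sum_congr rfl fun a _ => ?_
  field_simp
  ring

/-- The good open set: `x_a ≠ s_j`, `U_n(x) ≠ 0`. -/
def good (s : Fin (r + 1) → ℂ) : Set (Fin r → ℂ) :=
  {x | (∀ a j, x a ≠ s j) ∧ ∀ n ≤ r, Ux s x n ≠ 0}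

lemma good_ux_ne {s : Fin (r + 1) → ℂ} (hs : Function.Injective s) {x : Fin r → ℂ} (hx : x ∈ good s)
    (j : Fin (r + 1)) : ux s x j ≠ 0 := by
  unfold ux
  refine div_ne_zero (Finset.prod_ne_zero_iff.mpr fun a _ => ?_) (Fd_ne hs j)
  exact sub_ne_zero.mpr (hx.1 a j).symm

lemma Ux_ne {s : Fin (r + 1) → ℂ} {x : Fin r → ℂ} (hx : x ∈ good s) {n : ℕ} (hn : n ≤ r) :
    Ux s x n ≠ 0 := hx.2 n hn

lemma good_dux_eq {s : Fin (r + 1) → ℂ} {x : Fin r → ℂ} (hx : x ∈ good s)
    (j : Fin (r + 1)) (a : Fin r) : dux s x j a = ux s x j / (x a - s j) := by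
  unfold dux ux
  have h : x a - s j ≠ 0 := sub_ne_zero.mpr (hx.1 a j)
  rw [← Finset.mul_prod_erase univ (fun b => s j - x b) (Finset.mem_univ a)]
  rw [eq_div_iff h]
  ring

lemma tx_ne_zero {s : Fin (r + 1) → ℂ} {x : Fin r → ℂ} (hx : x ∈ good s) (i : Fin r) :
    tx s x i ≠ 0 := div_ne_zero (hx.2 _ (by omega)) (hx.2 _ (by omega))

lemma one_sub_tx {s : Fin (r + 1) → ℂ} {x : Fin r → ℂ} (hx : x ∈ good s) (i : Fin r) :
    1 - tx s x i = ux s x i.succ / Ux s x (i + 1) := by
  have h : Ux s x (i + 1) ≠ 0 := hx.2 _ (by omega)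
  unfold tx
  rw [eq_div_iff h, sub_mul, div_mul_cancel₀ _ h, Ux_succ]
  ring

lemma good_tx_ne_one {s : Fin (r + 1) → ℂ} (hs : Function.Injective s) {x : Fin r → ℂ}
    (hx : x ∈ good s) (i : Fin r) : tx s x i ≠ 1 := by
  intro h
  have h1 := one_sub_tx hx i
  rw [h, sub_self, eq_comm] at h1
  exact div_ne_zero (good_ux_ne hs hx _) (hx.2 _ (by omega)) h1

lemma continuous_Ux (s : Fin (r + 1) → ℂ) (n : ℕ) : Continuous fun x => Ux s x n :=
  continuous_iff_continuousAt.mpr fun x => (hasFDerivAt_Ux s x n).continuousAt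

theorem isOpen_good (s : Fin (r + 1) → ℂ) : IsOpen (good s) := by
  have h : good s = (⋂ a, ⋂ j, {x | x a ≠ s j}) ∩ ⋂ n ∈ Finset.range (r + 1),
      {x | Ux s x n ≠ 0} := by
    ext x
    simp only [good, Set.mem_ofPred_eq, Set.mem_inter_iff, Set.mem_iInter, Finset.mem_range,
      Nat.lt_succ_iff]
  rw [h]
  refine IsOpen.inter (isOpen_iInter_of_finite fun a => isOpen_iInter_of_finite fun j => ?_)
    (isOpen_biInter_finset fun n _ => ?_)
  · exact isOpen_ne_fun (continuous_apply a) continuous_const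
  · exact isOpen_ne_fun (continuous_Ux s n) continuous_const

/-- `U_n` as a polynomial. -/
def Qp (s : Fin (r + 1) → ℂ) (n : ℕ) : MvPolynomial (Fin r) ℂ :=
  ∑ j : Fin (r + 1), if j.1 ≤ n then
    (∏ a, (MvPolynomial.C (s j) - MvPolynomial.X a)) * MvPolynomial.C (Fd s j)⁻¹ else 0

lemma eval_Qp (s : Fin (r + 1) → ℂ) (n : ℕ) (x : Fin r → ℂ) :
    MvPolynomial.eval x (Qp s n) = Ux s x n := by
  unfold Qp Ux
  rw [map_sum]
  refine Finset.sum_congr rfl fun j _ => ?_
  split_ifs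
  · rw [map_mul, map_prod, ux, div_eq_mul_inv]
    simp
  · simp

lemma Ux_special {s : Fin (r + 1) → ℂ} (hs : Function.Injective s) (n : ℕ) :
    Ux s (fun a => s a.succ) n = 1 := by
  have h0 : ∀ i : Fin r, ux s (fun a => s a.succ) i.succ = 0 := by
    intro i
    unfold ux
    rw [Finset.prod_eq_zero (Finset.mem_univ i) (by simp), zero_div]
  have h1 := sum_ux hs (fun a => s a.succ)
  rw [Fin.sum_univ_succ, Finset.sum_eq_zero (fun i _ => h0 i), add_zero] at h1
  unfold Ux
  rw [Fin.sum_univ_succ, Finset.sum_eq_zero, add_zero, if_pos (by simp), h1]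
  intro i _
  rw [h0]
  simp

open MeasureTheory in
theorem ae_good {s : Fin (r + 1) → ℂ} (hs : Function.Injective s) :
    ∀ᵐ x : Fin r → ℂ, x ∈ good s := by
  have h1 : ∀ᵐ x : Fin r → ℂ, ∀ a j, x a ≠ s j := by
    rw [ae_all_iff]
    intro a
    rw [ae_all_iff]
    intro j
    rw [volume_pi]
    exact Measure.ae_eval_ne (μ := fun _ : Fin r => (volume : Measure ℂ)) a (s j)
  have h2 : ∀ᵐ x : Fin r → ℂ, ∀ n ≤ r, Ux s x n ≠ 0 := by
    rw [ae_all_iff]
    intro n
    by_cases hn : n ≤ r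
    · have h3 := null_zero_set r (Qp s n) (fun h => by
        have h4 := eval_Qp s n (fun a => s a.succ)
        rw [h, map_zero, Ux_special hs] at h4
        exact zero_ne_one h4)
      rw [← compl_mem_ae_iff] at h3
      filter_upwards [h3] with x hx _ h0
      exact hx (by rw [Set.mem_ofPred_eq, eval_Qp]; exact h0)
    · exact Filter.Eventually.of_forall fun x h => absurd h hn
  filter_upwards [h1, h2] with x hx1 hx2
  exact ⟨hx1, hx2⟩

open MeasureTheory in
theorem ae_injective : ∀ᵐ x : Fin r → ℂ, Function.Injective x := by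
  have h1 : ∀ᵐ x : Fin r → ℂ, ∀ a b : Fin r, a ≠ b → x a ≠ x b := by
    rw [ae_all_iff]
    intro a
    rw [ae_all_iff]
    intro b
    by_cases hab : a = b
    · exact Filter.Eventually.of_forall fun x h => absurd hab h
    · have h3 := null_zero_set r (MvPolynomial.X a - MvPolynomial.X b) (fun h => by
        have h4 := congrArg (MvPolynomial.eval (Pi.single a (1 : ℂ))) h
        simp [Ne.symm hab] at h4)
      rw [← compl_mem_ae_iff] at h3
      filter_upwards [h3] with x hx _ h0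
      exact hx (by rw [Set.mem_ofPred_eq]; simp [h0])
  filter_upwards [h1] with x hx a b hab
  by_contra h
  exact hx a b h hab

theorem good_nonempty {s : Fin (r + 1) → ℂ} (hs : Function.Injective s) :
    ∃ x ∈ good s, Function.Injective x := by
  have h := (ae_good hs).and (ae_injective (r := r))
  obtain ⟨x, hx⟩ := h.exists
  exact ⟨x, hx.1, hx.2⟩

end SE
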