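import Mathlib

/-!
# PROJECT SE, S2: the Cauchy determinant and the triangular step
-/

set_option autoImplicit false

open Polynomial Finset

namespace SE

variable {F : Type*} [Field F]

/-- `V(x) = ∏_{i < j} (x_j - x_i)`. -/
def vdm {r : ℕ} (x : Fin r → F) : F :=
  ∏ i : Fin r, ∏ j ∈ Ioi i, (x j - x i)

/-- `(-1)^(r (r - 1) / 2)`. -/
def sgn (F : Type*) [Field F] (r : ℕ) : F :=
  (-1) ^ (r * (r - 1) / 2)

theorem sgn_ne (r : ℕ) : sgn F r ≠ 0 :=
  pow_ne_zero _ (neg_ne_zero.2 one_ne_zero)

theorem vdm_ne {r : ℕ} {x : Fin r → F} (hx : Function.Injective x) : vdm x ≠ 0 := by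
  rw [vdm, prod_ne_zero_iff]
  intro i _
  rw [prod_ne_zero_iff]
  intro j hj
  rw [sub_ne_zero]
  intro h
  exact absurd (hx h) (ne_of_gt (mem_Ioi.1 hj))

theorem vdm_eq_zero {r : ℕ} {x : Fin r → F} {i j : Fin r} (h : i < j) (hij : x i = x j) :
    vdm x = 0 :=
  prod_eq_zero (mem_univ i) (prod_eq_zero (mem_Ioi.2 h) (by rw [hij, sub_self]))

theorem det_vdm {r : ℕ} (x : Fin r → F) : (Matrix.vandermonde x).det = vdm x :=
  Matrix.det_vandermonde x

/-- `∏_{l ≠ j} (X - s_l)`. -/
noncomputable def Gl {r : ℕ} (s : Fin r → F) (j : Fin r) : F[X] :=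
  ∏ l ∈ univ.erase j, (X - C (s l))

theorem natDegree_Gl {r : ℕ} (s : Fin r → F) (j : Fin r) : (Gl s j).natDegree < r := by
  rw [Gl, natDegree_prod_of_monic _ _ fun _ _ => monic_X_sub_C _]
  simp only [natDegree_X_sub_C, sum_const, smul_eq_mul, mul_one]
  rw [card_erase_of_mem (mem_univ j), card_univ, Fintype.card_fin]
  have := j.2
  omega

theorem eval_Gl {r : ℕ} (s : Fin r → F) (j : Fin r) (y : F) :
    (Gl s j).eval y = ∏ l ∈ univ.erase j, (y - s l) := by
  simp [Gl, eval_prod]

/-- the coefficient matrix -/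
noncomputable def cGl {r : ℕ} (s : Fin r → F) : Matrix (Fin r) (Fin r) F :=
  Matrix.of fun j m => (Gl s j).coeff m.1

theorem mat_Gl {r : ℕ} (s x : Fin r → F) :
    (Matrix.of fun j a => (Gl s j).eval (x a)) = cGl s * (Matrix.vandermonde x).transpose := by
  ext j a
  rw [Matrix.mul_apply, Matrix.of_apply, eval_eq_sum_range' (natDegree_Gl s j),
    Finset.sum_range]
  rfl

theorem det_Gl {r : ℕ} (s x : Fin r → F) :
    (Matrix.of fun j a => (Gl s j).eval (x a)).det = (cGl s).det * vdm x := by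
  rw [mat_Gl, Matrix.det_mul, Matrix.det_transpose, det_vdm]

theorem det_Gl_self {r : ℕ} (s : Fin r → F) :
    (Matrix.of fun j a => (Gl s j).eval (s a)).det = ∏ j, ∏ l ∈ univ.erase j, (s j - s l) := by
  have : (Matrix.of fun j a => (Gl s j).eval (s a)) =
      Matrix.diagonal fun j => ∏ l ∈ univ.erase j, (s j - s l) := by
    ext j a
    rw [Matrix.of_apply, eval_Gl, Matrix.diagonal_apply]
    split
    · next h => rw [h]
    · next h =>
      exact prod_eq_zero (mem_erase.2 ⟨fun h' => h h'.symm, mem_univ a⟩) (sub_self _)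
  rw [this, Matrix.det_diagonal]

theorem prod_erase_eq {r : ℕ} (s : Fin r → F) :
    ∏ j, ∏ l ∈ univ.erase j, (s j - s l) = sgn F r * (vdm s) ^ 2 := by
  have h1 : ∀ j : Fin r, ∏ l ∈ univ.erase j, (s j - s l) =
      (∏ l ∈ Ioi j, (s j - s l)) * ∏ l ∈ Iio j, (s j - s l) := by
    intro j
    rw [← prod_union]
    · refine prod_congr ?_ fun _ _ => rfl
      ext l
      simp only [mem_erase, mem_univ, and_true, mem_union, mem_Ioi, mem_Iio]
      exact ⟨fun h => (lt_or_gt_of_ne h).symm, fun h => h.elim (fun h => h.ne') fun h => h.ne⟩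
    · rw [disjoint_left]
      intro l h1 h2
      exact absurd (mem_Ioi.1 h1) (not_lt_of_gt (mem_Iio.1 h2))
  have h2 : ∏ j : Fin r, ∏ l ∈ Iio j, (s j - s l) = vdm s := by
    rw [vdm, prod_sigma', prod_sigma']
    refine prod_bij' (fun p _ => ⟨p.2, p.1⟩) (fun p _ => ⟨p.2, p.1⟩) ?_ ?_ ?_ ?_ ?_
    · intro p hp
      simp only [mem_sigma, mem_univ, mem_Iio, true_and, mem_Ioi] at hp ⊢
      exact hp
    · intro p hp
      simp only [mem_sigma, mem_univ, mem_Iio, true_and, mem_Ioi] at hp ⊢
      exact hp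
    · intro p _
      rfl
    · intro p _
      rfl
    · intro p _
      rfl
  have h3 : ∏ j : Fin r, ∏ l ∈ Ioi j, (s j - s l) = sgn F r * vdm s := by
    have : ∀ j : Fin r, ∏ l ∈ Ioi j, (s j - s l) =
        (-1) ^ (r - 1 - j.1) * ∏ l ∈ Ioi j, (s l - s j) := by
      intro j
      have h : ∀ l, s j - s l = (-1) * (s l - s j) := fun l => by ring
      rw [prod_congr rfl fun l _ => h l, prod_mul_distrib, prod_const, Fin.card_Ioi]
    rw [prod_congr rfl fun j _ => this j, prod_mul_distrib, prod_pow_eq_pow_sum]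
    congr 1
    rw [sgn]
    congr 1
    rw [← Finset.sum_range (f := fun i => r - 1 - i)]
    rw [Finset.sum_range_reflect (fun i => i) r, Finset.sum_range_id]
  rw [prod_congr rfl fun j _ => h1 j, prod_mul_distrib, h2, h3]
  ring

theorem det_cGl {r : ℕ} {s : Fin r → F} (hs : Function.Injective s) :
    (cGl s).det = sgn F r * vdm s := by
  have h := det_Gl s s
  rw [det_Gl_self, prod_erase_eq] at h
  have hv := vdm_ne hs
  have : (cGl s).det * vdm s = (sgn F r * vdm s) * vdm s := by
    rw [← h]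
    ring
  exact mul_right_cancel₀ hv this

/-- The Cauchy determinant. -/
theorem det_cauchy {r : ℕ} (s x : Fin r → F) (h : ∀ a j, x a ≠ s j) :
    (Matrix.of fun j a => 1 / (x a - s j)).det =
      sgn F r * vdm x * vdm s / ∏ a, ∏ j, (x a - s j) := by
  by_cases hs : Function.Injective s
  · have hne : ∀ a, ∏ j, (x a - s j) ≠ 0 := fun a => by
      rw [prod_ne_zero_iff]
      exact fun j _ => sub_ne_zero.2 (h a j)
    have hmat : (Matrix.of fun j a => 1 / (x a - s j)) =
        (Matrix.of fun j a => (Gl s j).eval (x a)) *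
          Matrix.diagonal fun a => (∏ j, (x a - s j))⁻¹ := by
      ext j a
      rw [Matrix.mul_diagonal, Matrix.of_apply, Matrix.of_apply, eval_Gl,
        ← mul_prod_erase univ (fun l => x a - s l) (mem_univ j)]
      have h1 : x a - s j ≠ 0 := sub_ne_zero.2 (h a j)
      have h2 : ∏ l ∈ univ.erase j, (x a - s l) ≠ 0 := by
        rw [prod_ne_zero_iff]
        exact fun l _ => sub_ne_zero.2 (h a l)
      field_simp
    rw [hmat, Matrix.det_mul, Matrix.det_diagonal, det_Gl, det_cGl hs, prod_inv_distrib]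
    rw [div_eq_mul_inv]
    ring
  · have : ∃ i j : Fin r, i < j ∧ s i = s j := by
      rw [Function.Injective] at hs
      push Not at hs
      obtain ⟨i, j, hij, hne⟩ := hs
      rcases lt_or_gt_of_ne hne with h | h
      · exact ⟨i, j, h, hij⟩
      · exact ⟨j, i, h, hij.symm⟩
    obtain ⟨i, j, hij, hs⟩ := this
    rw [vdm_eq_zero hij hs, mul_zero, zero_div]
    refine Matrix.det_zero_of_row_eq (ne_of_lt hij) ?_
    ext a
    simp only [Matrix.of_apply, hs]

/-! ## The triangular step -/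

/-- `det (H_i)_{i < r} = det (g_j)_{j < r}` if `H_i = ∑_{j ≤ i} g_j`. -/
theorem det_partial {r : ℕ} (H g : Fin r → Fin r → F)
    (hH : ∀ i a, H i a = ∑ j ∈ univ.filter (fun j : Fin r => j.1 ≤ i.1), g j a) :
    (Matrix.of H).det = (Matrix.of g).det := by
  have hmat : Matrix.of H =
      (Matrix.of fun i j : Fin r => if j.1 ≤ i.1 then (1 : F) else 0) * Matrix.of g := by
    ext i a
    rw [Matrix.mul_apply, Matrix.of_apply, hH, sum_filter]
    refine sum_congr rfl fun j _ => ?_
    simp only [Matrix.of_apply, ite_mul, one_mul, zero_mul]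
  rw [hmat, Matrix.det_mul, Matrix.det_of_isLowerTriangular, prod_eq_one, one_mul]
  · intro i _
    simp
  · intro i j hij
    simp only [Matrix.of_apply]
    rw [if_neg]
    have : i < j := hij
    have := Fin.lt_def.1 this
    omega

/-- The triangular step. -/
theorem det_quot {r : ℕ} (U : ℕ → F) (H : ℕ → Fin r → F) (hr : ∀ a, H r a = 0)
    (hU : ∀ i, i ≤ r → U i ≠ 0) :
    (Matrix.of fun i a : Fin r =>
      (H i.1 a * U (i.1 + 1) - U i.1 * H (i.1 + 1) a) / U (i.1 + 1) ^ 2).det =
      (∏ i : Fin r, 1 / U (i.1 + 1)) * (Matrix.of fun i a : Fin r => H i.1 a).det := by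
  have hmat : (Matrix.of fun i a : Fin r =>
      (H i.1 a * U (i.1 + 1) - U i.1 * H (i.1 + 1) a) / U (i.1 + 1) ^ 2) =
      (Matrix.of fun i j : Fin r => if j.1 = i.1 then 1 / U (i.1 + 1) else
        if j.1 = i.1 + 1 then - U i.1 / U (i.1 + 1) ^ 2 else 0) *
        (Matrix.of fun i a : Fin r => H i.1 a) := by
    ext i a
    rw [Matrix.mul_apply]
    simp only [Matrix.of_apply]
    have h1 : ∀ j : Fin r, (if j.1 = i.1 then 1 / U (i.1 + 1) else
        if j.1 = i.1 + 1 then - U i.1 / U (i.1 + 1) ^ 2 else 0) * H j.1 a =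
        (if j = i then 1 / U (i.1 + 1) * H i.1 a else 0) +
        (if j.1 = i.1 + 1 then - U i.1 / U (i.1 + 1) ^ 2 * H (i.1 + 1) a else 0) := by
      intro j
      by_cases h : j.1 = i.1
      · have h' : j = i := Fin.ext h
        have h'' : ¬ (i.1 = i.1 + 1) := by omega
        rw [if_pos h, if_pos h', h, if_neg h'', add_zero]
      · have h' : j ≠ i := fun hh => h (congrArg Fin.val hh)
        rw [if_neg h, if_neg h', zero_add]
        by_cases h3 : j.1 = i.1 + 1
        · rw [if_pos h3, if_pos h3, h3]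
        · rw [if_neg h3, if_neg h3, zero_mul]
    rw [sum_congr rfl fun j _ => h1 j, sum_add_distrib]
    have h2 : ∑ j : Fin r, (if j = i then 1 / U (i.1 + 1) * H i.1 a else 0) =
        1 / U (i.1 + 1) * H i.1 a := by
      rw [sum_ite_eq' univ i]
      simp
    have h3 : ∑ j : Fin r, (if j.1 = i.1 + 1 then - U i.1 / U (i.1 + 1) ^ 2 * H (i.1 + 1) a
        else 0) = - U i.1 / U (i.1 + 1) ^ 2 * H (i.1 + 1) a := by
      by_cases h : i.1 + 1 < r
      · rw [sum_eq_single (⟨i.1 + 1, h⟩ : Fin r)]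
        · rw [if_pos rfl]
        · intro b _ hb
          rw [if_neg fun h' => hb (Fin.ext h')]
        · intro h'
          exact absurd (mem_univ _) h'
      · have hir : i.1 + 1 = r := by
          have := i.2
          omega
        have h0 : H (i.1 + 1) a = 0 := by
          rw [hir]
          exact hr a
        rw [h0, mul_zero]
        refine sum_eq_zero fun j _ => ?_
        split <;> rfl
    rw [h2, h3]
    have hu : U (i.1 + 1) ≠ 0 := hU _ i.2
    field_simp
    ring
  rw [hmat, Matrix.det_mul, Matrix.det_of_isUpperTriangular]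
  · congr 1
    refine prod_congr rfl fun i _ => ?_
    simp
  · intro i j hij
    have h' : j < i := hij
    have := Fin.lt_def.1 h'
    simp only [Matrix.of_apply]
    rw [if_neg (by omega), if_neg (by omega)]

end SE
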