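import Pool.Agent.Lib.SE.S2.Lag
import Pool.Agent.Lib.SE.S2.Cau

/-!
# PROJECT SE, S2: the determinant `det [∂t_i / ∂x_a]`

`det [∂t_i / ∂x_a] = DD s · ∏ t_i (t_i - 1) · V(x) / ∏_a ∏_j (x_a - s_j)`, `DD s ≠ 0`.
-/

set_option autoImplicit false

open Finset Polynomial

noncomputable section

namespace SE

variable {r : ℕ}

/-- `∂u_j / ∂x_a`. -/
def dux (s : Fin (r + 1) → ℂ) (x : Fin r → ℂ) (j : Fin (r + 1)) (a : Fin r) : ℂ :=
  -(∏ b ∈ univ.erase a, (s j - x b)) / Fd s j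

/-- `∂U_n / ∂x_a`. -/
def dUx (s : Fin (r + 1) → ℂ) (x : Fin r → ℂ) (n : ℕ) (a : Fin r) : ℂ :=
  ∑ j : Fin (r + 1), if j.1 ≤ n then dux s x j a else 0

/-- `∂t_i / ∂x_a`. -/
def dtx (s : Fin (r + 1) → ℂ) (x : Fin r → ℂ) (i a : Fin r) : ℂ :=
  (dUx s x i a * Ux s x (i + 1) - Ux s x i * dUx s x (i + 1) a) / Ux s x (i + 1) ^ 2

/-- The constant. -/
def DD (s : Fin (r + 1) → ℂ) : ℂ :=
  Fd s (Fin.last r) * (sgn ℂ r * vdm fun j : Fin r => s j.castSucc)

theorem DD_ne {s : Fin (r + 1) → ℂ} (hs : Function.Injective s) : DD s ≠ 0 :=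
  mul_ne_zero (Fd_ne hs _) (mul_ne_zero (sgn_ne r)
    (vdm_ne fun _ _ h => Fin.castSucc_injective r (hs h)))

theorem dux_eq {s : Fin (r + 1) → ℂ} {x : Fin r → ℂ} {j : Fin (r + 1)} {a : Fin r}
    (h : x a ≠ s j) : dux s x j a = ux s x j * (1 / (x a - s j)) := by
  unfold dux ux
  rw [← mul_prod_erase univ (fun b => s j - x b) (mem_univ a)]
  have h1 : x a - s j ≠ 0 := sub_ne_zero.2 h
  rw [neg_div, div_mul_div_comm, mul_one]
  have h2 : (s j - x a) = -(x a - s j) := by ring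
  rw [h2, neg_mul, neg_div, mul_comm (Fd s j), mul_div_mul_left _ _ h1]

theorem sum_dux {s : Fin (r + 1) → ℂ} (hs : Function.Injective s) (x : Fin r → ℂ) (a : Fin r) :
    ∑ j, dux s x j a = 0 := by
  have hm : ∀ b ∈ univ.erase a, (X - C (x b) : ℂ[X]).Monic := fun b _ => monic_X_sub_C _
  have hmon : (∏ b ∈ univ.erase a, (X - C (x b) : ℂ[X])).Monic := monic_prod_of_monic _ _ hm
  have hr : 0 < r := lt_of_le_of_lt (Nat.zero_le _) a.2
  have hnd : (∏ b ∈ univ.erase a, (X - C (x b) : ℂ[X])).natDegree = r - 1 := by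
    rw [natDegree_prod_of_monic _ _ hm]
    simp [card_erase_of_mem]
  have hdeg : (∏ b ∈ univ.erase a, (X - C (x b) : ℂ[X])).degree <
      ((univ : Finset (Fin (r + 1))).card : WithBot ℕ) := by
    rw [degree_eq_natDegree hmon.ne_zero, hnd, card_univ, Fintype.card_fin]
    exact_mod_cast (by omega : r - 1 < r + 1)
  have h := Lagrange.coeff_eq_sum (s := (univ : Finset (Fin (r + 1)))) (v := s) hs.injOn hdeg
  rw [coeff_eq_zero_of_natDegree_lt] at h
  · have h2 : ∀ j, dux s x j a = -(eval (s j) (∏ b ∈ univ.erase a, (X - C (x b) : ℂ[X])) /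
        ∏ l ∈ univ.erase j, (s j - s l)) := by
      intro j
      rw [eval_prod, dux, neg_div, Fd]
      simp
    rw [Finset.sum_congr rfl fun j _ => h2 j, Finset.sum_neg_distrib, ← h, neg_zero]
  · rw [hnd, card_univ, Fintype.card_fin]
    omega

theorem dUx_last {s : Fin (r + 1) → ℂ} (hs : Function.Injective s) (x : Fin r → ℂ)
    (a : Fin r) : dUx s x r a = 0 := by
  rw [← sum_dux hs x a]
  unfold dUx
  refine Finset.sum_congr rfl fun j _ => ?_
  rw [if_pos (by omega)]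

theorem dUx_eq (s : Fin (r + 1) → ℂ) (x : Fin r → ℂ) (i a : Fin r) :
    dUx s x i a = ∑ j ∈ univ.filter (fun j : Fin r => j.1 ≤ i.1), dux s x j.castSucc a := by
  unfold dUx
  rw [Fin.sum_univ_castSucc, if_neg (by rw [Fin.val_last]; omega), add_zero, sum_filter]
  rfl

theorem prod_tele (U : ℕ → ℂ) :
    (∏ i : Fin r, U (i.1 + 1)) * U 0 = (∏ i : Fin r, U i.1) * U r := by
  have h1 := Fin.prod_univ_succ (fun i : Fin (r + 1) => U i.1)
  have h2 := Fin.prod_univ_castSucc (fun i : Fin (r + 1) => U i.1)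
  simp only [Fin.val_succ, Fin.val_castSucc, Fin.val_last, Fin.val_zero] at h1 h2
  rw [← h2, h1, mul_comm]

theorem ux_ne {s : Fin (r + 1) → ℂ} (hs : Function.Injective s) {x : Fin r → ℂ}
    (hx : ∀ a j, x a ≠ s j) (j : Fin (r + 1)) : ux s x j ≠ 0 :=
  div_ne_zero (prod_ne_zero_iff.2 fun a _ => sub_ne_zero.2 (hx a j).symm) (Fd_ne hs j)

/-- THE DETERMINANT. -/
theorem det_dtx {s : Fin (r + 1) → ℂ} (hs : Function.Injective s) {x : Fin r → ℂ}
    (hx : ∀ a j, x a ≠ s j) (hU : ∀ n ≤ r, Ux s x n ≠ 0) :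
    (Matrix.of fun i a => dtx s x i a).det =
      DD s * (∏ i, (tx s x i * (tx s x i - 1))) * vdm x / ∏ a, ∏ j, (x a - s j) := by
  have h1 : (Matrix.of fun i a => dtx s x i a).det =
      (∏ i : Fin r, 1 / Ux s x (i.1 + 1)) *
        (Matrix.of fun i a : Fin r => dUx s x i.1 a).det :=
    det_quot (Ux s x) (dUx s x) (dUx_last hs x) hU
  have h2 : (Matrix.of fun i a : Fin r => dUx s x i.1 a).det =
      (Matrix.of fun j a : Fin r => dux s x j.castSucc a).det :=
    det_partial (fun i a => dUx s x i.1 a) (fun j a => dux s x j.castSucc a) (dUx_eq s x)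
  have h3 : (Matrix.of fun j a : Fin r => dux s x j.castSucc a) =
      Matrix.diagonal (fun j : Fin r => ux s x j.castSucc) *
        (Matrix.of fun j a : Fin r => 1 / (x a - s j.castSucc)) := by
    ext j a
    rw [Matrix.diagonal_mul, Matrix.of_apply, Matrix.of_apply, dux_eq (hx a _)]
  have h4 := det_cauchy (fun j : Fin r => s j.castSucc) x (fun a j => hx a _)
  rw [h1, h2, h3, Matrix.det_mul, Matrix.det_diagonal, h4]
  -- the products
  have hF : ∏ a, ∏ j, (x a - s j) =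
      (∏ a, ∏ j : Fin r, (x a - s j.castSucc)) * ∏ a, (x a - s (Fin.last r)) := by
    rw [← prod_mul_distrib]
    exact prod_congr rfl fun a _ => Fin.prod_univ_castSucc _
  have hlast : ∏ a, (x a - s (Fin.last r)) =
      (-1) ^ r * (ux s x (Fin.last r) * Fd s (Fin.last r)) := by
    unfold ux
    rw [div_mul_cancel₀ _ (Fd_ne hs _)]
    have h : ∀ a, x a - s (Fin.last r) = (-1) * (s (Fin.last r) - x a) := fun a => by ring
    rw [prod_congr rfl fun a _ => h a, prod_mul_distrib]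
    simp
  have ht : ∏ i, (tx s x i * (tx s x i - 1)) =
      (-1) ^ r * ((∏ i : Fin r, Ux s x i.1) * (∏ i : Fin r, ux s x i.succ)) /
        (∏ i : Fin r, Ux s x (i.1 + 1)) ^ 2 := by
    have : ∀ i : Fin r, tx s x i * (tx s x i - 1) =
        (-1) * (Ux s x i.1 * ux s x i.succ) / (Ux s x (i.1 + 1)) ^ 2 := by
      intro i
      have hne := hU (i.1 + 1) i.2
      have hu : ux s x i.succ = Ux s x (i.1 + 1) - Ux s x i.1 := by
        rw [Ux_succ]
        ring
      rw [hu, tx]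
      field_simp
      ring
    rw [prod_congr rfl fun i _ => this i, prod_div_distrib, prod_mul_distrib, prod_mul_distrib,
      prod_pow]
    simp
  have hu1 := Fin.prod_univ_succ (fun j : Fin (r + 1) => ux s x j)
  have hu2 := Fin.prod_univ_castSucc (fun j : Fin (r + 1) => ux s x j)
  have htel := prod_tele (r := r) (Ux s x)
  rw [Ux_zero, Ux_last hs, mul_one] at htel
  have hP : ∏ i : Fin r, Ux s x (i.1 + 1) ≠ 0 :=
    prod_ne_zero_iff.2 fun i _ => hU _ i.2
  have hP0 : ∏ i : Fin r, Ux s x i.1 ≠ 0 :=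
    prod_ne_zero_iff.2 fun i _ => hU _ i.2.le
  have hS : ∏ i : Fin r, ux s x i.succ ≠ 0 :=
    prod_ne_zero_iff.2 fun i _ => ux_ne hs hx _
  have hC : ∏ i : Fin r, ux s x i.castSucc ≠ 0 :=
    prod_ne_zero_iff.2 fun i _ => ux_ne hs hx _
  have hG : ∏ a, ∏ j : Fin r, (x a - s j.castSucc) ≠ 0 :=
    prod_ne_zero_iff.2 fun a _ => prod_ne_zero_iff.2 fun j _ => sub_ne_zero.2 (hx a _)
  have hL := ux_ne hs hx (Fin.last r)
  have hFd := Fd_ne hs (Fin.last r)
  have h10 : ((-1 : ℂ)) ^ r ≠ 0 := pow_ne_zero _ (by norm_num)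
  have hprod1 : (∏ i : Fin r, 1 / Ux s x (i.1 + 1)) = 1 / ∏ i : Fin r, Ux s x (i.1 + 1) := by
    rw [prod_div_distrib]
    simp
  rw [hF, hlast, ht, hprod1, DD]
  have e1 : ux s x 0 * ∏ i : Fin r, ux s x i.succ =
      (∏ i : Fin r, ux s x i.castSucc) * ux s x (Fin.last r) := by
    rw [← hu1, hu2]
  generalize (∏ i : Fin r, Ux s x (i.1 + 1)) = P at *
  generalize (∏ i : Fin r, Ux s x i.1) = P0 at *
  generalize (∏ i : Fin r, ux s x i.succ) = S at *
  generalize (∏ i : Fin r, ux s x i.castSucc) = Cc at *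
  generalize (∏ a, ∏ j : Fin r, (x a - s j.castSucc)) = G at *
  generalize ux s x (Fin.last r) = L at *
  generalize Fd s (Fin.last r) = D at *
  generalize ux s x 0 = u0 at *
  subst htel
  field_simp
  linear_combination (-(sgn ℂ r * vdm x * vdm fun j : Fin r => s j.castSucc)) * e1

/-- The determinant of the forms `v_i dt_i / (t_i (t_i - 1))`. -/
theorem det_beta {s : Fin (r + 1) → ℂ} (hs : Function.Injective s) {x : Fin r → ℂ}
    (hx : ∀ a j, x a ≠ s j) (hU : ∀ n ≤ r, Ux s x n ≠ 0) (ht : ∀ i, tx s x i ≠ 1)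
    (v : Fin r → ℂ) :
    (Matrix.of fun i a => v i / (tx s x i * (tx s x i - 1)) * dtx s x i a).det =
      DD s * vdm x * (∏ i, v i) / ∏ a, ∏ j, (x a - s j) := by
  have h1 : (Matrix.of fun i a => v i / (tx s x i * (tx s x i - 1)) * dtx s x i a) =
      Matrix.diagonal (fun i => v i / (tx s x i * (tx s x i - 1))) *
        (Matrix.of fun i a => dtx s x i a) := by
    ext i a
    rw [Matrix.diagonal_mul]
    rfl
  have h2 : ∀ i, tx s x i ≠ 0 := fun i => div_ne_zero (hU _ i.2.le) (hU _ i.2)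
  have h3 : ∏ i, (tx s x i * (tx s x i - 1)) ≠ 0 :=
    prod_ne_zero_iff.2 fun i _ => mul_ne_zero (h2 i) (sub_ne_zero.2 (ht i))
  rw [h1, Matrix.det_mul, Matrix.det_diagonal, det_dtx hs hx hU, prod_div_distrib]
  field_simp

theorem tx_ne_one {s : Fin (r + 1) → ℂ} (hs : Function.Injective s) {x : Fin r → ℂ}
    (hx : ∀ a j, x a ≠ s j) (hU : ∀ n ≤ r, Ux s x n ≠ 0) (i : Fin r) : tx s x i ≠ 1 := by
  intro h
  rw [tx, div_eq_one_iff_eq (hU _ i.2), Ux_succ] at h
  exact ux_ne hs hx i.succ (by linear_combination -h)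

/-- The determinant of the forms `x^i y dx / F(x)`: `det [x_a^i y_a / F(x_a)]`. -/
theorem det_A (s : Fin (r + 1) → ℂ) (x y : Fin r → ℂ) :
    (Matrix.of fun i a : Fin r => x a ^ i.1 * y a / ∏ j, (x a - s j)).det =
      vdm x * (∏ a, y a) / ∏ a, ∏ j, (x a - s j) := by
  have h1 : (Matrix.of fun i a : Fin r => x a ^ i.1 * y a / ∏ j, (x a - s j)) =
      (Matrix.vandermonde x).transpose * Matrix.diagonal (fun a => y a / ∏ j, (x a - s j)) := by
    ext i a
    rw [Matrix.mul_diagonal, Matrix.transpose_apply, Matrix.vandermonde_apply, Matrix.of_apply]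
    ring
  rw [h1, Matrix.det_mul, Matrix.det_transpose, det_vdm, Matrix.det_diagonal, prod_div_distrib]
  ring

/-- `det (β) = const · det (A)`, if `∏ y_a = κ ∏ v_i`. -/
theorem det_beta_eq {s : Fin (r + 1) → ℂ} (hs : Function.Injective s) {x : Fin r → ℂ}
    (hx : ∀ a j, x a ≠ s j) (hU : ∀ n ≤ r, Ux s x n ≠ 0) (v y : Fin r → ℂ) (κ : ℂ)
    (hκ : κ ≠ 0) (hy : ∏ a, y a = κ * ∏ i, v i) :
    (Matrix.of fun i a => v i / (tx s x i * (tx s x i - 1)) * dtx s x i a).det =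
      DD s / κ * (Matrix.of fun i a : Fin r => x a ^ i.1 * y a / ∏ j, (x a - s j)).det := by
  rw [det_beta hs hx hU (tx_ne_one hs hx hU), det_A, hy]
  field_simp

end SE
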