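import Pool.Agent.Lib.SE.S2.GDefs
import Pool.Agent.Lib.SE.S2.Det

/-!
# PROJECT SE, part S2, general signature: the determinant identity (helper81)

`D_1(σ) = C_σ D_1(-σ)` on the sheets, `C_σ ≠ 0` a constant.
-/

set_option autoImplicit false

open Finset

noncomputable section

namespace SE

variable {p q : ℕ}

/-- `a ∈ Fin p ⊕ Fin q` as an index in `Fin (p + q)`. -/
abbrev fs (a : Fin p ⊕ Fin q) : Fin (p + q) := finSumFinEquiv a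

/-- The matrix of `D_1`: rows `x_a^i y_a / F_a` (`i < p`) and `J_(ν,a) / v_ν` (`ν ∈ Q`). -/
def M1 (x y F : Fin p ⊕ Fin q → ℂ) (v : Fin p ⊕ Fin q → ℂ)
    (J : Matrix (Fin p ⊕ Fin q) (Fin p ⊕ Fin q) ℂ) :
    Matrix (Fin p ⊕ Fin q) (Fin p ⊕ Fin q) ℂ :=
  Matrix.of fun ν a => Sum.elim (fun i : Fin p => x a ^ i.1 * y a / F a)
    (fun ν : Fin q => J (Sum.inr ν) a / v (Sum.inr ν)) ν

/-- The matrix of `D_2`: rows `v_ν g_ν J_(ν,a)` (`ν ∈ P`) and `x_a^j / y_a` (`j < q`). -/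
def M2 (x y : Fin p ⊕ Fin q → ℂ) (v g : Fin p ⊕ Fin q → ℂ)
    (J : Matrix (Fin p ⊕ Fin q) (Fin p ⊕ Fin q) ℂ) :
    Matrix (Fin p ⊕ Fin q) (Fin p ⊕ Fin q) ℂ :=
  Matrix.of fun ν a => Sum.elim (fun ν : Fin p => v (Sum.inl ν) * g (Sum.inl ν) * J (Sum.inl ν) a)
    (fun j : Fin q => x a ^ j.1 / y a) ν

/-- The matrix `x_a^e / y_a`, exponents `p + q - 1 - i` and `j`. -/
def MA (x y : Fin p ⊕ Fin q → ℂ) : Matrix (Fin p ⊕ Fin q) (Fin p ⊕ Fin q) ℂ :=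
  Matrix.of fun a ν => Sum.elim (fun i : Fin p => x a ^ (p + q - 1 - i.1) / y a)
    (fun j : Fin q => x a ^ j.1 / y a) ν

/-- (A1) Linear algebra.

PROOF.  `D = diag (F_a / h_a)`.  `M1 * D * MA` has the blocks: `(inl, inl)`: entries
`∑ x^(i + p + q - 1 - i') / h`, `0` for `i < i'`, `1` for `i = i'`, so determinant `1` (triangular);
`(inl, inr)`: `∑ x^(i+j) / h = 0` (`i + j ≤ p + q - 2`); `(inr, inr)`: `v_ν⁻¹ C_(ν,j)`,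
`C_(ν,j) = ∑_a J_(ν,a) (F_a / h_a) x_a^j / y_a`.  So `det M1 det D det MA = ∏_(ν ∈ Q) v_ν⁻¹ det C`.
`M2 * D * Jᵀ` has the blocks `(inl, inl)`: `diag (- v g / G)`, `(inl, inr) = 0`, `(inr, inr) = Cᵀ`; so
`det M2 det D det J = ∏_(ν ∈ P) (- v g / G) det C`.  (`Matrix.det_fromBlocks_zero₁₂` or
`Matrix.twoBlockTriangular_det`.) -/
def S_A1 : Prop :=
  ∀ (p q : ℕ) (x y F h v g G : Fin p ⊕ Fin q → ℂ)
    (J : Matrix (Fin p ⊕ Fin q) (Fin p ⊕ Fin q) ℂ),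
    (∀ a, y a ≠ 0) → (∀ a, F a ≠ 0) → (∀ a, h a ≠ 0) → (∀ ν, v ν ≠ 0) → (∀ ν, G ν ≠ 0) →
    (∀ e : ℕ, e + 1 < p + q → ∑ a, x a ^ e / h a = 0) →
    (∀ e : ℕ, e + 1 = p + q → ∑ a, x a ^ e / h a = 1) →
    (∀ ν ν', ∑ a, J ν a * (F a / h a) * J ν' a = if ν = ν' then -(G ν)⁻¹ else 0) →
    (M1 x y F v J).det * (MA x y).det * (∏ ν : Fin q, v (Sum.inr ν)) *
      (∏ ν : Fin p, -(v (Sum.inl ν) * g (Sum.inl ν) / G (Sum.inl ν))) =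
      (M2 x y v g J).det * J.det

/-- (A1') The determinant of `MA`.  PROOF: `Matrix.det_vandermonde` with permuted columns. -/
def S_A1' : Prop :=
  ∀ p q : ℕ, ∃ ε : ℂ, (ε = 1 ∨ ε = -1) ∧ ∀ (x : Fin (p + q) → ℂ) (y : Fin p ⊕ Fin q → ℂ),
    (MA (fun a => x (fs a)) y).det = ε * vdm x * ∏ a, (y a)⁻¹

/-- (A2) Sums of powers.

PROOF: Lagrange interpolation of `X^e` at the `x_a`: the coefficient of `X^(n-1)`
(`Lagrange.sum_basis`, or as in `sum_ux`, `Lag.lean`). -/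
def S_A2 : Prop :=
  ∀ (n : ℕ) (x : Fin n → ℂ), Function.Injective x → ∀ e : ℕ,
    (e + 1 < n → ∑ a, x a ^ e / ∏ b ∈ univ.erase a, (x a - x b) = 0) ∧
    (e + 1 = n → ∑ a, x a ^ e / ∏ b ∈ univ.erase a, (x a - x b) = 1)

/-- (A3) The metric `∑ du_j^2 / u_j` is diagonal in the `x`.

PROOF: `dux_j,a = u_j / (x_a - s_j)`, `u_j = ∏_a (s_j - x_a) / F'(s_j)`.  For `a ≠ b` the term `j` is
`∏_(c ≠ a,b) (s_j - x_c) / F'(s_j)`, sum `0` by (A2) (degree `r - 2 ≤ (r + 1) - 2`; expand the product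
as a polynomial in `s_j`).  For `a = b` it is `- g(s_j) / (F'(s_j) (x_a - s_j))`,
`g = ∏_(c ≠ a) (X - x_c)`, and `∑_j g(s_j) / (F'(s_j) (X - s_j)) = g(X) / F(X)` (Lagrange
interpolation of `g`, degree `r - 1 < r + 1`). -/
def S_A3 : Prop :=
  ∀ (r : ℕ) (s : Fin (r + 1) → ℂ) (x : Fin r → ℂ), Function.Injective s → Function.Injective x →
    (∀ a j, x a ≠ s j) → ∀ a b : Fin r,
    ∑ j, dux s x j a * dux s x j b / ux s x j =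
      if a = b then -(∏ c ∈ univ.erase a, (x a - x c)) / ∏ j, (x a - s j) else 0

/-- `J_(ν,a) = ∂t_ν / ∂x_a`. -/
def JJ (τ : Tr) (eL : Fin (p + q + 1) ≃ τ.L) (eN : Fin p ⊕ Fin q ≃ τ.N)
    (s : Fin (p + q + 1) → ℂ) (x : Fin (p + q) → ℂ) :
    Matrix (Fin p ⊕ Fin q) (Fin p ⊕ Fin q) ℂ :=
  Matrix.of fun ν a => τ.dt (fun l => ux s x (eL.symm l)) (fun l => dux s x (eL.symm l) (fs a)) (eN ν)

/-- The good set. -/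
def gd (τ : Tr) (eL : Fin (p + q + 1) ≃ τ.L) (s : Fin (p + q + 1) → ℂ) : Set (Fin (p + q) → ℂ) :=
  {x | Function.Injective x ∧ (∀ a j, x a ≠ s j) ∧ τ.Ok fun l => ux s x (eL.symm l)}

/-- (A4) The orthogonality relation for `J`.

PROOF: (T1) and (A3) and `sum_dux`: `Jᵀ diag(G) J = diag (- h_a / F_a)`,
`G_ν = W^3 / (U_L U_R)`, `h_a = ∏_(b ≠ a) (x_a - x_b)`, `F_a = ∏_j (x_a - s_j)`; so
`J diag(F/h) Jᵀ = - diag(G)⁻¹` (`Matrix.mul_eq_one_comm`). -/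
def S_A4 : Prop :=
  ∀ (p q : ℕ) (τ : Tr) (eL : Fin (p + q + 1) ≃ τ.L) (eN : Fin p ⊕ Fin q ≃ τ.N)
    (s : Fin (p + q + 1) → ℂ), Function.Injective s → ∀ x ∈ gd τ eL s, ∀ ν ν',
    ∑ a, JJ τ eL eN s x ν a * ((∏ j, (x (fs a) - s j)) / ∏ b ∈ univ.erase (fs a), (x (fs a) - x b)) *
      JJ τ eL eN s x ν' a =
      if ν = ν' then -(τ.wt (fun l => ux s x (eL.symm l)) (eN ν) ^ 3 /
        ((τ.lr (fun l => ux s x (eL.symm l)) (eN ν)).1 *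
          (τ.lr (fun l => ux s x (eL.symm l)) (eN ν)).2))⁻¹ else 0

/-- (A5) The determinant of `J`.

PROOF: (T3) with `w_a = dux` and `det (dux_(j,a))_(j < r) = ∏_(j<r) u_j * det_cauchy`, `∏ u_j` in terms of
`∏∏ (x_a - s_j)` (see the proof of `det_dtx` in `Det.lean`). -/
def S_A5 : Prop :=
  ∀ (p q : ℕ) (τ : Tr) (eL : Fin (p + q + 1) ≃ τ.L) (eN : Fin p ⊕ Fin q ≃ τ.N)
    (s : Fin (p + q + 1) → ℂ), Function.Injective s → ∃ C : ℂ, C ≠ 0 ∧ ∀ x ∈ gd τ eL s,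
    (JJ τ eL eN s x).det = C * vdm x * ∏ ν, (τ.wt (fun l => ux s x (eL.symm l)) ν)⁻¹

/-- `g_ν = 1 / (t_ν (1 - t_ν))`. -/
def gg (τ : Tr) (eL : Fin (p + q + 1) ≃ τ.L) (eN : Fin p ⊕ Fin q ≃ τ.N)
    (s : Fin (p + q + 1) → ℂ) (x : Fin (p + q) → ℂ) (ν : Fin p ⊕ Fin q) : ℂ :=
  1 / (τ.tt (fun l => ux s x (eL.symm l)) (eN ν) * (1 - τ.tt (fun l => ux s x (eL.symm l)) (eN ν)))

/-- **(G)** THE IDENTITY `D_1 = C D_2`.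

PROOF: (A1) with `G = W^3 / (U_L U_R) = W g`, (A1'), (A2), (A4), (A5). -/
def S_G : Prop :=
  ∀ (p q : ℕ) (τ : Tr) (eL : Fin (p + q + 1) ≃ τ.L) (eN : Fin p ⊕ Fin q ≃ τ.N)
    (s : Fin (p + q + 1) → ℂ), Function.Injective s → ∃ C : ℂ, C ≠ 0 ∧ ∀ x ∈ gd τ eL s,
    ∀ (y v : Fin p ⊕ Fin q → ℂ), (∀ a, y a ≠ 0) → (∀ ν, v ν ≠ 0) →
    (M1 (fun a => x (fs a)) y (fun a => ∏ j, (x (fs a) - s j)) v (JJ τ eL eN s x)).det *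
      (∏ ν, v ν) * (∏ ν : Fin q, τ.wt (fun l => ux s x (eL.symm l)) (eN (Sum.inr ν))) =
    C * (∏ a, y a) *
      (M2 (fun a => x (fs a)) y v (gg τ eL eN s x) (JJ τ eL eN s x)).det

/-- **(NV)** `D_1` does not vanish on all sheets.

PROOF: `v` only scales rows.  The determinant is a polynomial of degree `≤ 1` in each `y_a`; if it
vanishes on the grid `∏ {ζ y_a : ζ^m = 1}` (at least two points in each variable), it is `0`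
(`MvPolynomial.eq_zero_of_eval_zero_at_prod_finset`).  `J` is invertible (A5), so the rows `ν ∈ Q` are
linearly independent and there are `q` columns `T` with `det (J_(Q,T)) ≠ 0`; put `y_a = 0` on `T` and `1`
elsewhere: the determinant is `± det (x_a^i / F_a)_(a ∉ T) det (J_(Q,T) / v) ≠ 0`. -/
def S_NV : Prop :=
  ∀ (p q : ℕ) (τ : Tr) (eL : Fin (p + q + 1) ≃ τ.L) (eN : Fin p ⊕ Fin q ≃ τ.N)
    (s : Fin (p + q + 1) → ℂ), Function.Injective s → ∀ x ∈ gd τ eL s, ∀ m : ℕ, 2 ≤ m →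
    ∀ (y v : Fin p ⊕ Fin q → ℂ), (∀ a, y a ≠ 0) → (∀ ν, v ν ≠ 0) →
    ∃ ζ : Fin p ⊕ Fin q → ℂ, (∀ a, ζ a ^ m = 1) ∧
      (M1 (fun a => x (fs a)) (fun a => ζ a * y a) (fun a => ∏ j, (x (fs a) - s j)) v
        (JJ τ eL eN s x)).det ≠ 0

/-! ## The sheets -/

/-- `y_σ = y^σ ∏_j (x - s_j)^(-⌊σ b_j / m⌋)` (a form `x^i y_σ dx / ∏ (x - s_j)` is of the first kind for
small `i`). -/
def ysg {k : ℕ} (m : ℕ) (s : Fin k → ℂ) (b : Fin k → ℤ) (σ : ℤ) (x y : ℂ) : ℂ :=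
  y ^ σ * ∏ j, (x - s j) ^ (-(σ * b j / m))

/-- `v_σ = v^σ t^(-⌊σ c / m⌋) (1 - t)^(-⌊σ d / m⌋)`, for the curve `v^m = t^c (1 - t)^d`. -/
def vsg (m : ℕ) (c d : ℤ) (σ : ℤ) (t v : ℂ) : ℂ :=
  v ^ σ * (t ^ (-(σ * c / m)) * (1 - t) ^ (-(σ * d / m)))

/-- (G1) `y_(-σ) y_σ = F(x)` and `v_(-σ) v_σ = t (1 - t)`. -/
def S_G1 : Prop :=
  (∀ (k m : ℕ) (s : Fin k → ℂ) (b : Fin k → ℤ) (σ : ℤ) (x y : ℂ), 0 < m → y ≠ 0 →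
    (∀ j, x ≠ s j) → (∀ j, ¬ (m : ℤ) ∣ σ * b j) →
    ysg m s b (-σ) x y * ysg m s b σ x y = ∏ j, (x - s j)) ∧
  (∀ (m : ℕ) (c d σ : ℤ) (t v : ℂ), 0 < m → v ≠ 0 → t ≠ 0 → t ≠ 1 → ¬ (m : ℤ) ∣ σ * c →
    ¬ (m : ℤ) ∣ σ * d → vsg m c d (-σ) t v * vsg m c d σ t v = t * (1 - t))

/-- (G2) The relation between the `y_σ` and the `v_σ` (uses T4, T5, `prod_f`).

`∏_a y_a = κ ∏_ν v_ν` gives `∏_a y_(σ,a) = κ_σ ∏_ν v_(σ,ν) ∏_(ν ∈ Q_σ) W_ν`,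
`κ_σ = κ^σ ∏_j ((-1)^r F'(s_j))^(-⌊σ b_j / m⌋)`.
PROOF: `∏_a (x_a - s_j) = (-1)^r F'(s_j) u_j`; (T4) for `-⌊σ b_j / m⌋`; `σ c_L = m ∑_L ⌊σ b_j/m⌋ + N_L`,
`n_j = σ b_j % m`, so `⌊σ c_L / m⌋ = ∑_L ⌊σ b_j / m⌋ + N_L / m`; (T5) for `n_j`, with `∑ u_j = 1`. -/
def S_G2 : Prop :=
  ∀ (r m : ℕ) (τ : Tr) (eL : Fin (r + 1) ≃ τ.L) (s : Fin (r + 1) → ℂ) (b : Fin (r + 1) → ℤ)
    (σ : ℤ), 0 < m → Function.Injective s → ∀ x : Fin r → ℂ, (∀ a j, x a ≠ s j) →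
    τ.Ok (fun l => ux s x (eL.symm l)) → ∀ (y : Fin r → ℂ) (v : τ.N → ℂ) (κ : ℂ),
    (∀ a, y a ≠ 0) → (∀ ν, v ν ≠ 0) → κ ≠ 0 → ∏ a, y a = κ * ∏ ν, v ν →
    ∏ a, ysg m s b σ (x a) (y a) =
      κ ^ σ * (∏ j, ((-1) ^ r * Fd s j) ^ (-(σ * b j / m))) *
      (∏ ν, vsg m (τ.lr (fun l => b (eL.symm l)) ν).1 (τ.lr (fun l => b (eL.symm l)) ν).2 σ
        (τ.tt (fun l => ux s x (eL.symm l)) ν) (v ν)) *
      ∏ ν, if (m : ℤ) ≤ σ * (τ.lr (fun l => b (eL.symm l)) ν).1 % m +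
          σ * (τ.lr (fun l => b (eL.symm l)) ν).2 % m then
        τ.wt (fun l => ux s x (eL.symm l)) ν else 1

end SE
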