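import Pool.Agent.Lib.SE.Defs
import Pool.Agent.Lib.SE.S2.Ana
import Pool.Agent.Lib.SE.S2.GStmt

/-!
# PROJECT SE: the functions `t_ν(x)`, the good set `gd`
-/

set_option autoImplicit false

open Finset

noncomputable section

namespace SE

/-! ## Polynomial functions -/

section poly
variable {E : Type} [AddCommGroup E] [Module ℂ E]

theorem poly_const (c : ℂ) : HC.SE.IsPoly (fun _ : E => c) := by
  have h := (Algebra.adjoin ℂ (Set.range fun (l : E →ₗ[ℂ] ℂ) (v : E) => l v)).algebraMap_mem c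
  exact h

theorem poly_lin (l : E →ₗ[ℂ] ℂ) : HC.SE.IsPoly (fun v : E => l v) :=
  Algebra.subset_adjoin ⟨l, rfl⟩

theorem poly_add {f g : E → ℂ} (hf : HC.SE.IsPoly f) (hg : HC.SE.IsPoly g) :
    HC.SE.IsPoly (fun v => f v + g v) := Subalgebra.add_mem _ hf hg

theorem poly_mul {f g : E → ℂ} (hf : HC.SE.IsPoly f) (hg : HC.SE.IsPoly g) :
    HC.SE.IsPoly (fun v => f v * g v) := Subalgebra.mul_mem _ hf hg

theorem poly_neg {f : E → ℂ} (hf : HC.SE.IsPoly f) :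
    HC.SE.IsPoly (fun v => -f v) := Subalgebra.neg_mem _ hf

theorem poly_sub {f g : E → ℂ} (hf : HC.SE.IsPoly f) (hg : HC.SE.IsPoly g) :
    HC.SE.IsPoly (fun v => f v - g v) := Subalgebra.sub_mem _ hf hg

theorem poly_pow {f : E → ℂ} (hf : HC.SE.IsPoly f) (n : ℕ) :
    HC.SE.IsPoly (fun v => f v ^ n) := Subalgebra.pow_mem _ hf n

theorem poly_sum {ι : Type} (t : Finset ι) {f : ι → E → ℂ} (hf : ∀ i ∈ t, HC.SE.IsPoly (f i)) :
    HC.SE.IsPoly (fun v => ∑ i ∈ t, f i v) := by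
  have h := Subalgebra.sum_mem (Algebra.adjoin ℂ (Set.range fun (l : E →ₗ[ℂ] ℂ) (v : E) => l v)) hf
  have h2 : (fun v => ∑ i ∈ t, f i v) = ∑ i ∈ t, f i := by
    funext v
    rw [Finset.sum_apply]
  rw [h2]
  exact h

theorem poly_prod {ι : Type} (t : Finset ι) {f : ι → E → ℂ} (hf : ∀ i ∈ t, HC.SE.IsPoly (f i)) :
    HC.SE.IsPoly (fun v => ∏ i ∈ t, f i v) := by
  have h := Subalgebra.prod_mem (Algebra.adjoin ℂ (Set.range fun (l : E →ₗ[ℂ] ℂ) (v : E) => l v)) hf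
  have h2 : (fun v => ∏ i ∈ t, f i v) = ∏ i ∈ t, f i := by
    funext v
    rw [Finset.prod_apply]
  rw [h2]
  exact h

end poly

theorem poly_coord {r : ℕ} (a : Fin r) : HC.SE.IsPoly (fun x : Fin r → ℂ => x a) :=
  poly_lin (LinearMap.proj a : (Fin r → ℂ) →ₗ[ℂ] ℂ)

/-- A polynomial function on `ℂ^r` is the evaluation of a polynomial. -/
theorem poly_eval {r : ℕ} {f : (Fin r → ℂ) → ℂ} (hf : HC.SE.IsPoly f) :
    ∃ q : MvPolynomial (Fin r) ℂ, ∀ x, MvPolynomial.eval x q = f x := by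
  unfold HC.SE.IsPoly at hf
  induction hf using Algebra.adjoin_induction with
  | mem f hf =>
    obtain ⟨l, rfl⟩ := hf
    refine ⟨∑ a, MvPolynomial.C (l (Pi.single a 1)) * MvPolynomial.X a, fun x => ?_⟩
    have h2 : x = ∑ a, x a • (Pi.single a (1 : ℂ) : Fin r → ℂ) := by
      funext j
      simp [Finset.sum_apply, Pi.single_apply]
    simp only [map_sum, map_mul, MvPolynomial.eval_C, MvPolynomial.eval_X]
    conv_rhs => rw [h2, map_sum]
    refine Finset.sum_congr rfl fun a _ => ?_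
    rw [map_smul, smul_eq_mul, mul_comm]
  | algebraMap c => exact ⟨MvPolynomial.C c, fun x => by simp⟩
  | add f g _ _ hf hg =>
    obtain ⟨p, hp⟩ := hf
    obtain ⟨q, hq⟩ := hg
    exact ⟨p + q, fun x => by simp [hp, hq]⟩
  | mul f g _ _ hf hg =>
    obtain ⟨p, hp⟩ := hf
    obtain ⟨q, hq⟩ := hg
    exact ⟨p * q, fun x => by simp [hp, hq]⟩

open MeasureTheory in
theorem poly_ae_ne {r : ℕ} {f : (Fin r → ℂ) → ℂ} (hf : HC.SE.IsPoly f) (h0 : ∃ x, f x ≠ 0) :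
    ∀ᵐ x : Fin r → ℂ, f x ≠ 0 := by
  obtain ⟨q, hq⟩ := poly_eval hf
  obtain ⟨x0, hx0⟩ := h0
  have h3 := null_zero_set r q (fun h => by
    have h4 := hq x0
    rw [h, map_zero] at h4
    exact hx0 h4.symm)
  rw [← compl_mem_ae_iff] at h3
  filter_upwards [h3] with x hx h0
  exact hx (by rw [Set.mem_ofPred_eq, hq]; exact h0)

theorem poly_continuous {r : ℕ} {f : (Fin r → ℂ) → ℂ} (hf : HC.SE.IsPoly f) : Continuous f := by
  obtain ⟨q, hq⟩ := poly_eval hf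
  have : f = fun x => MvPolynomial.eval x q := funext fun x => (hq x).symm
  rw [this]
  exact MvPolynomial.continuous_eval q

/-! ## Trees -/

namespace Tr

theorem nonemptyL : ∀ τ : Tr, Nonempty τ.L
  | lf => ⟨()⟩
  | nd l _ => ⟨Sum.inl (nonemptyL l).some⟩

theorem single_inl {l r : Tr} (j : l.L) :
    (fun j' => (Pi.single (Sum.inl j) (1 : ℂ) : (nd l r).L → ℂ) (Sum.inl j')) =
      (Pi.single j (1 : ℂ) : l.L → ℂ) := by
  funext j'
  by_cases h : j' = j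
  · subst h
    exact (Pi.single_eq_same (M := fun _ : (nd l r).L => ℂ) _ _).trans
      (Pi.single_eq_same (M := fun _ : l.L => ℂ) _ _).symm
  · exact (Pi.single_eq_of_ne (M := fun _ : (nd l r).L => ℂ)
      (fun h2 => h (Sum.inl.inj h2)) _).trans (Pi.single_eq_of_ne (M := fun _ : l.L => ℂ) h _).symm

theorem single_inr {l r : Tr} (j : r.L) :
    (fun j' => (Pi.single (Sum.inr j) (1 : ℂ) : (nd l r).L → ℂ) (Sum.inr j')) =
      (Pi.single j (1 : ℂ) : r.L → ℂ) := by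
  funext j'
  by_cases h : j' = j
  · subst h
    exact (Pi.single_eq_same (M := fun _ : (nd l r).L => ℂ) _ _).trans
      (Pi.single_eq_same (M := fun _ : r.L => ℂ) _ _).symm
  · exact (Pi.single_eq_of_ne (M := fun _ : (nd l r).L => ℂ)
      (fun h2 => h (Sum.inr.inj h2)) _).trans (Pi.single_eq_of_ne (M := fun _ : r.L => ℂ) h _).symm

theorem single_inl_inr {l r : Tr} (j : l.L) (j' : r.L) :
    (Pi.single (Sum.inl j) (1 : ℂ) : (nd l r).L → ℂ) (Sum.inr j') = 0 := by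
  have h : (Sum.inr j' : (nd l r).L) ≠ (Sum.inl j : (nd l r).L) := fun h => by
    have h2 : (Sum.inr j' : l.L ⊕ r.L) = Sum.inl j := h
    simp at h2
  exact Pi.single_eq_of_ne (M := fun _ : (nd l r).L => ℂ) h 1

theorem single_inr_inl {l r : Tr} (j : r.L) (j' : l.L) :
    (Pi.single (Sum.inr j) (1 : ℂ) : (nd l r).L → ℂ) (Sum.inl j') = 0 := by
  have h : (Sum.inl j' : (nd l r).L) ≠ (Sum.inr j : (nd l r).L) := fun h => by
    have h2 : (Sum.inl j' : l.L ⊕ r.L) = Sum.inr j := h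
    simp at h2
  exact Pi.single_eq_of_ne (M := fun _ : (nd l r).L => ℂ) h 1

/-- There is a leaf on the left. -/
theorem exL : ∀ (τ : Tr) (ν : τ.N), ∃ j, (τ.lr (Pi.single j (1 : ℂ)) ν).1 = 1 ∧
    (τ.lr (Pi.single j (1 : ℂ)) ν).2 = 0
  | lf, ν => Empty.elim ν
  | nd l r, none => by
    obtain ⟨j⟩ := nonemptyL l
    refine ⟨Sum.inl j, ?_, ?_⟩
    · have h : ∑ j', (Pi.single (Sum.inl j) (1 : ℂ) : (nd l r).L → ℂ) (Sum.inl j') = 1 := by
        rw [Finset.sum_congr rfl (fun j' _ => congrFun (single_inl (r := r) j) j')]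
        simp
      exact h
    · exact Finset.sum_eq_zero fun j' _ => single_inl_inr j j'
  | nd l r, some (Sum.inl ν) => by
    obtain ⟨j, h1, h2⟩ := exL l ν
    refine ⟨Sum.inl j, ?_, ?_⟩
    · exact (congrArg (fun f => (l.lr f ν).1) (single_inl (r := r) j)).trans h1
    · exact (congrArg (fun f => (l.lr f ν).2) (single_inl (r := r) j)).trans h2
  | nd l r, some (Sum.inr ν) => by
    obtain ⟨j, h1, h2⟩ := exL r ν
    refine ⟨Sum.inr j, ?_, ?_⟩
    · exact (congrArg (fun f => (r.lr f ν).1) (single_inr (l := l) j)).trans h1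
    · exact (congrArg (fun f => (r.lr f ν).2) (single_inr (l := l) j)).trans h2

/-- There is a leaf on the right. -/
theorem exR : ∀ (τ : Tr) (ν : τ.N), ∃ j, (τ.lr (Pi.single j (1 : ℂ)) ν).2 = 1 ∧
    (τ.lr (Pi.single j (1 : ℂ)) ν).1 = 0
  | lf, ν => Empty.elim ν
  | nd l r, none => by
    obtain ⟨j⟩ := nonemptyL r
    refine ⟨Sum.inr j, ?_, ?_⟩
    · have h : ∑ j', (Pi.single (Sum.inr j) (1 : ℂ) : (nd l r).L → ℂ) (Sum.inr j') = 1 := by
        rw [Finset.sum_congr rfl (fun j' _ => congrFun (single_inr (l := l) j) j')]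
        simp
      exact h
    · exact Finset.sum_eq_zero fun j' _ => single_inr_inl j j'
  | nd l r, some (Sum.inl ν) => by
    obtain ⟨j, h1, h2⟩ := exR l ν
    refine ⟨Sum.inl j, ?_, ?_⟩
    · exact (congrArg (fun f => (l.lr f ν).2) (single_inl (r := r) j)).trans h1
    · exact (congrArg (fun f => (l.lr f ν).1) (single_inl (r := r) j)).trans h2
  | nd l r, some (Sum.inr ν) => by
    obtain ⟨j, h1, h2⟩ := exR r ν
    refine ⟨Sum.inr j, ?_, ?_⟩
    · exact (congrArg (fun f => (r.lr f ν).2) (single_inr (l := l) j)).trans h1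
    · exact (congrArg (fun f => (r.lr f ν).1) (single_inr (l := l) j)).trans h2

/-- `U_L` and `U_R` are polynomial functions if the `u_l` are. -/
theorem poly_lr {E : Type} [AddCommGroup E] [Module ℂ E] : ∀ (τ : Tr) (u : E → τ.L → ℂ)
    (_ : ∀ l, HC.SE.IsPoly fun v => u v l) (ν : τ.N),
    HC.SE.IsPoly (fun v => (τ.lr (u v) ν).1) ∧ HC.SE.IsPoly (fun v => (τ.lr (u v) ν).2)
  | lf, _, _, ν => Empty.elim ν
  | nd _ _, _, hu, none => ⟨poly_sum _ fun j _ => hu (Sum.inl j), poly_sum _ fun j _ =>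
      hu (Sum.inr j)⟩
  | nd l _, u, hu, some (Sum.inl ν) =>
    poly_lr l (fun v j => u v (Sum.inl j)) (fun j => hu (Sum.inl j)) ν
  | nd _ r, u, hu, some (Sum.inr ν) =>
    poly_lr r (fun v j => u v (Sum.inr j)) (fun j => hu (Sum.inr j)) ν

/-- The derivatives of `U_L` and `U_R`. -/
theorem hasFDerivAt_lr {n : ℕ} : ∀ (τ : Tr) (u : (Fin n → ℂ) → τ.L → ℂ) (w : Fin n → τ.L → ℂ)
    (x : Fin n → ℂ) (_ : ∀ l, HasFDerivAt (fun x => u x l) (_root_.SE.lf fun a => w a l) x) (ν : τ.N),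
    HasFDerivAt (fun x => (τ.lr (u x) ν).1) (_root_.SE.lf fun a => (τ.lr (w a) ν).1) x ∧
    HasFDerivAt (fun x => (τ.lr (u x) ν).2) (_root_.SE.lf fun a => (τ.lr (w a) ν).2) x
  | lf, _, _, _, _, ν => Empty.elim ν
  | nd l r, u, w, x, hu, none => by
    constructor
    · have h := HasFDerivAt.fun_sum fun (j : l.L) (_ : j ∈ univ) => hu (Sum.inl j)
      refine h.congr_fderiv ?_
      ext v
      simp only [_root_.sum_apply, lf_apply]
      rw [Finset.sum_comm]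
      refine Finset.sum_congr rfl fun a _ => ?_
      rw [← Finset.sum_mul]
      rfl
    · have h := HasFDerivAt.fun_sum fun (j : r.L) (_ : j ∈ univ) => hu (Sum.inr j)
      refine h.congr_fderiv ?_
      ext v
      simp only [_root_.sum_apply, lf_apply]
      rw [Finset.sum_comm]
      refine Finset.sum_congr rfl fun a _ => ?_
      rw [← Finset.sum_mul]
      rfl
  | nd l _, u, w, x, hu, some (Sum.inl ν) =>
    hasFDerivAt_lr l (fun v j => u v (Sum.inl j)) (fun a j => w a (Sum.inl j)) x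
      (fun j => hu (Sum.inl j)) ν
  | nd _ r, u, w, x, hu, some (Sum.inr ν) =>
    hasFDerivAt_lr r (fun v j => u v (Sum.inr j)) (fun a j => w a (Sum.inr j)) x
      (fun j => hu (Sum.inr j)) ν

end Tr

variable {r : ℕ}

/-- `u_l(x)`, indexed by the leaves of the tree. -/
abbrev uT (τ : Tr) (eL : Fin (r + 1) ≃ τ.L) (s : Fin (r + 1) → ℂ) (x : Fin r → ℂ) : τ.L → ℂ :=
  fun l => ux s x (eL.symm l)

/-- The equation of the complement of the good set. -/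
def Gp (τ : Tr) (eL : Fin (r + 1) ≃ τ.L) (s : Fin (r + 1) → ℂ) (x : Fin r → ℂ) : ℂ :=
  (∏ a, ∏ b ∈ univ.erase a, (x a - x b)) * (∏ a, ∏ j, (x a - s j)) *
    (∏ l, uT τ eL s x l) * (∑ l, uT τ eL s x l) *
    ∏ ν, ((τ.lr (uT τ eL s x) ν).1 * (τ.lr (uT τ eL s x) ν).2 * τ.wt (uT τ eL s x) ν)

theorem Gp_ne_zero_iff (τ : Tr) (eL : Fin (r + 1) ≃ τ.L) (s : Fin (r + 1) → ℂ) (x : Fin r → ℂ) :
    Gp τ eL s x ≠ 0 ↔ Function.Injective x ∧ (∀ a j, x a ≠ s j) ∧ τ.Ok (uT τ eL s x) := by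
  unfold Gp Tr.Ok
  simp only [mul_ne_zero_iff, Finset.prod_ne_zero_iff, Finset.mem_univ, forall_true_left,
    Finset.mem_erase, sub_ne_zero]
  constructor
  · rintro ⟨⟨⟨⟨h1, h2⟩, h3⟩, h4⟩, h5⟩
    refine ⟨fun a b hab => ?_, h2, h3, h4, fun ν => ⟨(h5 ν).1.1, (h5 ν).1.2, (h5 ν).2⟩⟩
    by_contra hne
    exact h1 a b ⟨fun h => hne h.symm, trivial⟩ hab
  · rintro ⟨h1, h2, h3, h4, h5⟩
    exact ⟨⟨⟨⟨fun a b hab hx => hab.1 (h1 hx).symm, h2⟩, h3⟩, h4⟩,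
      fun ν => ⟨⟨(h5 ν).1, (h5 ν).2.1⟩, (h5 ν).2.2⟩⟩

theorem poly_ux (s : Fin (r + 1) → ℂ) (j : Fin (r + 1)) :
    HC.SE.IsPoly fun x : Fin r → ℂ => ux s x j := by
  have h : (fun x : Fin r → ℂ => ux s x j) = fun x => (∏ a, (s j - x a)) * (Fd s j)⁻¹ := by
    funext x
    rw [ux, div_eq_mul_inv]
  rw [h]
  exact poly_mul (poly_prod _ fun a _ => poly_sub (poly_const _) (poly_coord a)) (poly_const _)

theorem poly_Gp (τ : Tr) (eL : Fin (r + 1) ≃ τ.L) (s : Fin (r + 1) → ℂ) :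
    HC.SE.IsPoly (Gp τ eL s) := by
  have h1 : ∀ l, HC.SE.IsPoly fun x : Fin r → ℂ => uT τ eL s x l := fun l => poly_ux s _
  have h2 := fun ν => Tr.poly_lr τ (fun x => uT τ eL s x) h1 ν
  unfold Gp
  refine poly_mul (poly_mul (poly_mul (poly_mul (poly_prod _ fun a _ => poly_prod _ fun b _ =>
    poly_sub (poly_coord a) (poly_coord b)) (poly_prod _ fun a _ => poly_prod _ fun j _ =>
    poly_sub (poly_coord a) (poly_const _))) (poly_prod _ fun l _ => h1 l))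
    (poly_sum _ fun l _ => h1 l)) (poly_prod _ fun ν _ => poly_mul (poly_mul (h2 ν).1 (h2 ν).2)
    (poly_add (h2 ν).1 (h2 ν).2))

/-- `u = δ_j` at the point `x = (s_l)_(l ≠ j)`. -/
theorem ux_special {s : Fin (r + 1) → ℂ} (hs : Function.Injective s) (j : Fin (r + 1)) :
    ∀ l, ux s (fun a => s (j.succAbove a)) l = if l = j then 1 else 0 := by
  have h0 : ∀ l, l ≠ j → ux s (fun a => s (j.succAbove a)) l = 0 := by
    intro l hl
    obtain ⟨i, hi⟩ := Fin.exists_succAbove_eq hl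
    unfold ux
    rw [Finset.prod_eq_zero (Finset.mem_univ i) (by simp only [hi, sub_self]), zero_div]
  intro l
  by_cases hl : l = j
  · rw [if_pos hl, hl]
    have h1 := sum_ux hs (fun a => s (j.succAbove a))
    rwa [Finset.sum_eq_single j (fun l _ hl => h0 l hl) (fun h => absurd (Finset.mem_univ _) h)]
      at h1
  · rw [if_neg hl, h0 l hl]

theorem uT_special {τ : Tr} (eL : Fin (r + 1) ≃ τ.L) {s : Fin (r + 1) → ℂ}
    (hs : Function.Injective s) (j : τ.L) :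
    uT τ eL s (fun a => s ((eL.symm j).succAbove a)) = Pi.single j 1 := by
  funext l
  rw [uT, ux_special hs, Pi.single_apply]
  simp only [EmbeddingLike.apply_eq_iff_eq]

open MeasureTheory in
theorem Gp_ae (τ : Tr) (eL : Fin (r + 1) ≃ τ.L) {s : Fin (r + 1) → ℂ}
    (hs : Function.Injective s) : ∀ᵐ x : Fin r → ℂ, Gp τ eL s x ≠ 0 := by
  have h1 : ∀ l, HC.SE.IsPoly fun x : Fin r → ℂ => uT τ eL s x l := fun l => poly_ux s _
  have h2 := fun ν => Tr.poly_lr τ (fun x => uT τ eL s x) h1 ν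
  have a1 : ∀ᵐ x : Fin r → ℂ, ∀ l, uT τ eL s x l ≠ 0 := by
    rw [ae_all_iff]
    intro l
    refine poly_ae_ne (h1 l) ⟨fun a => s ((eL.symm l).succAbove a), ?_⟩
    rw [uT_special eL hs, Pi.single_eq_same]
    exact one_ne_zero
  have a2 : ∀ᵐ x : Fin r → ℂ, ∀ ν, (τ.lr (uT τ eL s x) ν).1 ≠ 0 := by
    rw [ae_all_iff]
    intro ν
    obtain ⟨j, hj1, hj2⟩ := Tr.exL τ ν
    refine poly_ae_ne (h2 ν).1 ⟨fun a => s ((eL.symm j).succAbove a), ?_⟩
    rw [uT_special eL hs, hj1]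
    exact one_ne_zero
  have a3 : ∀ᵐ x : Fin r → ℂ, ∀ ν, (τ.lr (uT τ eL s x) ν).2 ≠ 0 := by
    rw [ae_all_iff]
    intro ν
    obtain ⟨j, hj1, hj2⟩ := Tr.exR τ ν
    refine poly_ae_ne (h2 ν).2 ⟨fun a => s ((eL.symm j).succAbove a), ?_⟩
    rw [uT_special eL hs, hj1]
    exact one_ne_zero
  have a4 : ∀ᵐ x : Fin r → ℂ, ∀ ν, τ.wt (uT τ eL s x) ν ≠ 0 := by
    rw [ae_all_iff]
    intro ν
    obtain ⟨j, hj1, hj2⟩ := Tr.exL τ ν
    refine poly_ae_ne (poly_add (h2 ν).1 (h2 ν).2) ⟨fun a => s ((eL.symm j).succAbove a), ?_⟩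
    rw [uT_special eL hs, Tr.wt, hj1, hj2, add_zero]
    exact one_ne_zero
  filter_upwards [a1, a2, a3, a4, ae_injective (r := r), ae_good hs] with x b1 b2 b3 b4 b5 b6
  rw [Gp_ne_zero_iff]
  refine ⟨b5, b6.1, b1, ?_, fun ν => ⟨b2 ν, b3 ν, b4 ν⟩⟩
  have h3 : ∑ l, uT τ eL s x l = ∑ j, ux s x j := Equiv.sum_comp eL.symm fun j => ux s x j
  rw [h3, sum_ux hs]
  exact one_ne_zero

open MeasureTheory in
theorem Gp_exists (τ : Tr) (eL : Fin (r + 1) ≃ τ.L) {s : Fin (r + 1) → ℂ}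
    (hs : Function.Injective s) : ∃ x : Fin r → ℂ, Gp τ eL s x ≠ 0 := (Gp_ae τ eL hs).exists

theorem sum_uT (τ : Tr) (eL : Fin (r + 1) ≃ τ.L) {s : Fin (r + 1) → ℂ}
    (hs : Function.Injective s) (x : Fin r → ℂ) : ∑ l, uT τ eL s x l = 1 := by
  have h3 : ∑ l, uT τ eL s x l = ∑ j, ux s x j := Equiv.sum_comp eL.symm fun j => ux s x j
  rw [h3, sum_ux hs]

theorem isOpen_Gp (τ : Tr) (eL : Fin (r + 1) ≃ τ.L) (s : Fin (r + 1) → ℂ) :
    IsOpen {x | Gp τ eL s x ≠ 0} :=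
  isOpen_ne_fun (poly_continuous (poly_Gp τ eL s)) continuous_const

/-- The derivative of `t_ν(x)`. -/
theorem hasFDerivAt_tt (τ : Tr) (eL : Fin (r + 1) ≃ τ.L) (s : Fin (r + 1) → ℂ)
    (x : Fin r → ℂ) (ν : τ.N) (h : τ.wt (uT τ eL s x) ν ≠ 0) :
    HasFDerivAt (fun x => τ.tt (uT τ eL s x) ν)
      (lf fun a => τ.dt (uT τ eL s x) (fun l => dux s x (eL.symm l) a) ν) x := by
  obtain ⟨h1, h2⟩ := Tr.hasFDerivAt_lr τ (fun x => uT τ eL s x)
    (fun a l => dux s x (eL.symm l) a) x (fun l => hasFDerivAt_ux s x _) ν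
  have h3 := h1.mul ((hasDerivAt_inv h).comp_hasFDerivAt x (h1.add h2))
  have h4 : (fun x => τ.tt (uT τ eL s x) ν) = (fun x => (τ.lr (uT τ eL s x) ν).1) *
      ((fun y => y⁻¹) ∘ ((fun x => (τ.lr (uT τ eL s x) ν).1) +
        fun x => (τ.lr (uT τ eL s x) ν).2)) := by
    funext y
    simp only [Tr.tt, Tr.wt, Pi.mul_apply, Pi.add_apply, Function.comp_apply, div_eq_mul_inv]
  rw [h4]
  refine h3.congr_fderiv ?_
  ext v
  simp only [_root_.add_apply, _root_.smul_apply, lf_apply, Tr.dt, smul_eq_mul,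
    Function.comp_apply, Pi.add_apply]
  unfold Tr.wt at h ⊢
  rw [← Finset.sum_add_distrib, Finset.mul_sum, Finset.mul_sum, Finset.mul_sum,
    ← Finset.sum_add_distrib]
  refine Finset.sum_congr rfl fun a _ => ?_
  field_simp
  ring

/-- `t_ν(x)` is a rational function. -/
theorem rat_tt (τ : Tr) (eL : Fin (r + 1) ≃ τ.L) (s : Fin (r + 1) → ℂ) (ν : τ.N) :
    ∃ p q : (Fin r → ℂ) → ℂ, HC.SE.IsPoly p ∧ HC.SE.IsPoly q ∧
      ∀ z, Gp τ eL s z ≠ 0 → q z ≠ 0 ∧ τ.tt (uT τ eL s z) ν = p z / q z := by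
  have h1 : ∀ l, HC.SE.IsPoly fun x : Fin r → ℂ => uT τ eL s x l := fun l => poly_ux s _
  have h2 := Tr.poly_lr τ (fun x => uT τ eL s x) h1 ν
  exact ⟨_, _, h2.1, poly_add h2.1 h2.2, fun z hz =>
    ⟨(((Gp_ne_zero_iff τ eL s z).1 hz).2.2.2.2 ν).2.2, rfl⟩⟩

/-- `x_a` is a rational function. -/
theorem rat_coord (a : Fin r) (g : (Fin r → ℂ) → ℂ) :
    ∃ p q : (Fin r → ℂ) → ℂ, HC.SE.IsPoly p ∧ HC.SE.IsPoly q ∧
      ∀ z, g z ≠ 0 → q z ≠ 0 ∧ z a = p z / q z :=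
  ⟨_, _, poly_coord a, poly_const 1, fun z _ => ⟨one_ne_zero, by rw [div_one]⟩⟩

theorem tt_ne_zero {τ : Tr} {u : τ.L → ℂ} (h : τ.Ok u) (ν : τ.N) : τ.tt u ν ≠ 0 :=
  div_ne_zero (h.2.2 ν).1 (h.2.2 ν).2.2

theorem one_sub_tt {τ : Tr} {u : τ.L → ℂ} (h : τ.Ok u) (ν : τ.N) :
    1 - τ.tt u ν = (τ.lr u ν).2 / τ.wt u ν := by
  have h1 := (h.2.2 ν).2.2
  rw [Tr.tt, eq_div_iff h1, sub_mul, div_mul_cancel₀ _ h1, Tr.wt]
  ring

theorem tt_ne_one {τ : Tr} {u : τ.L → ℂ} (h : τ.Ok u) (ν : τ.N) : τ.tt u ν ≠ 1 := by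
  intro h1
  have h2 := one_sub_tt h ν
  rw [h1, sub_self, eq_comm] at h2
  exact div_ne_zero (h.2.2 ν).2.1 (h.2.2 ν).2.2 h2

/-- The good set of `GStmt` is `{Gp ≠ 0}`. -/
theorem gd_eq {p q : ℕ} (τ : Tr) (eL : Fin (p + q + 1) ≃ τ.L) (s : Fin (p + q + 1) → ℂ) :
    gd τ eL s = {x | Gp τ eL s x ≠ 0} := by
  ext x
  exact (Gp_ne_zero_iff τ eL s x).symm

end SE
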