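import Pool.Agent.Lib.SE.S2.Ex

/-!
# PROJECT SE, S2: the two determinants `D_1`, `D_2` (linear algebra)

(DC) `det M_1 · V(x) · ∏ y_a⁻¹ · ∏_P N = ε · det M_2 · det J`.
(HA) the `2r × 2r` determinant of `(H, conj H')` over the frame `e_1, i e_1, e_2, i e_2, …`.
-/

set_option autoImplicit false

open Finset Polynomial Matrix

noncomputable section

namespace SE

/-- two identifications of the columns -/
theorem exists_sign {m n : Type*} [Fintype m] [DecidableEq m] (e e' : m ≃ n) :
    ∃ ε : ℂ, ε ≠ 0 ∧ ∀ B : Matrix m n ℂ, (B.submatrix id e).det = ε * (B.submatrix id e').det := by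
  refine ⟨((Equiv.Perm.sign (e.trans e'.symm) : ℤ) : ℂ), ?_, fun B => ?_⟩
  · rcases Int.units_eq_one_or (Equiv.Perm.sign (e.trans e'.symm)) with h | h <;> rw [h] <;>
      simp
  · rw [← Matrix.det_permute' (e.trans e'.symm) (B.submatrix id e')]
    congr 1
    ext i j
    simp

/-- two identifications of rows and columns -/
theorem exists_sign2 {m m' n : Type*} [Fintype m] [DecidableEq m] [Fintype m']
    [DecidableEq m'] (a : m' ≃ m) (b : m' ≃ n) (e : m ≃ n) :
    ∃ ε : ℂ, ε ≠ 0 ∧ ∀ B : Matrix m n ℂ,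
      (B.submatrix a b).det = ε * (B.submatrix id e).det := by
  obtain ⟨ε, hε, h⟩ := exists_sign (a.symm.trans b) e
  refine ⟨ε, hε, fun B => ?_⟩
  rw [← h B, ← Matrix.det_submatrix_equiv_self a (B.submatrix id (a.symm.trans b))]
  congr 1
  ext i j
  simp

variable {r : ℕ}

/-- `D_1 ~ D_2`. -/
theorem dc {p q : ℕ} {ι : Type*} [Fintype ι] [DecidableEq ι] (e : Fin p ⊕ Fin q ≃ ι)
    (e1 : Fin p ⊕ Fin q ≃ Fin r) (e2 : Fin q ⊕ Fin p ≃ Fin r) (eJ : ι ≃ Fin r) :
    ∃ ε : ℂ, ε ≠ 0 ∧ ∀ (x y F : Fin r → ℂ) (J : ι → Fin r → ℂ) (N : ι → ℂ),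
      Function.Injective x → (∀ a, y a ≠ 0) → (∀ a, F a ≠ 0) →
      (∀ i j, ∑ a, J i a * J j a * (-(F a) / hd x a) = if i = j then N i else 0) →
      (Matrix.of fun (k l : Fin p ⊕ Fin q) => Sum.elim (fun g : Fin p => x (e1 l) ^ (g : ℕ) *
          y (e1 l) / F (e1 l)) (fun k => J (e (Sum.inr k)) (e1 l)) k).det * vdm x *
        (∏ a, y a)⁻¹ * ∏ k : Fin p, N (e (Sum.inl k)) =
      ε * (Matrix.of fun (k l : Fin q ⊕ Fin p) => Sum.elim (fun h : Fin q => x (e2 l) ^ (h : ℕ) /
          y (e2 l)) (fun k => J (e (Sum.inl k)) (e2 l)) k).det *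
        (Matrix.of fun i j : ι => J i (eJ j)).det := by
  classical
  have hpq : p + q = r := by
    have := Fintype.card_congr e1
    simpa using this
  -- the exponents
  let f : Fin p ⊕ Fin q ≃ Fin r :=
    ((Equiv.sumComm (Fin p) (Fin q)).trans finSumFinEquiv).trans
      (finCongr (by omega : q + p = r))
  have hf1 : ∀ g : Fin p, (f (Sum.inl g) : ℕ) = q + g := by
    intro g
    simp [f]
  have hf2 : ∀ h : Fin q, (f (Sum.inr h) : ℕ) = h := by
    intro h
    simp [f]
  obtain ⟨ε1, hε1, H1⟩ := exists_sign2 (m := Fin r) (n := Fin r) e1 f (Equiv.refl (Fin r))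
  obtain ⟨ε2, hε2, H2⟩ := exists_sign2 (m := Fin q ⊕ Fin p) (n := Fin r)
    (Equiv.sumComm (Fin p) (Fin q)) e1 e2
  obtain ⟨ε3, hε3, H3⟩ := exists_sign2 (m := ι) (n := Fin r) e e1 eJ
  obtain ⟨ε4, hε4, H4⟩ := exists_sign (m := Fin p) (n := Fin p) Fin.revPerm (Equiv.refl _)
  refine ⟨ε1⁻¹ * (ε4⁻¹ * (-1) ^ p) * ε2 * ε3, by
    refine mul_ne_zero (mul_ne_zero (mul_ne_zero (inv_ne_zero hε1) (mul_ne_zero
      (inv_ne_zero hε4) (pow_ne_zero _ (by norm_num)))) hε2) hε3, ?_⟩
  intro x y F J N hx hy hF hJ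
  set w : Fin r → ℂ := fun a => -(F a) / hd x a with hw
  have hwne : ∀ a, w a ≠ 0 := fun a => div_ne_zero (neg_ne_zero.2 (hF a)) (hd_ne hx a)
  -- the matrices
  set P1 : Matrix (Fin p ⊕ Fin q) (Fin p ⊕ Fin q) ℂ :=
    Matrix.of fun (k l : Fin p ⊕ Fin q) => Sum.elim (fun g : Fin p => x (e1 l) ^ (g : ℕ) *
          y (e1 l) / F (e1 l)) (fun k => J (e (Sum.inr k)) (e1 l)) k with hP1
  set Dm : Matrix (Fin p ⊕ Fin q) (Fin p ⊕ Fin q) ℂ := Matrix.diagonal fun l => w (e1 l)
  set Wm : Matrix (Fin r) (Fin r) ℂ := Matrix.of fun a h => x a ^ (h : ℕ) / y a with hWm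
  set M2 : Matrix (Fin q ⊕ Fin p) (Fin r) ℂ := Matrix.of fun k a =>
    Sum.elim (fun h : Fin q => x a ^ (h : ℕ) / y a) (fun k => J (e (Sum.inl k)) a) k with hM2
  set Jm : Matrix ι (Fin r) ℂ := Matrix.of fun i a => J i a with hJm
  set Y : Matrix (Fin q) (Fin q) ℂ := Matrix.of fun k h =>
    ∑ a, J (e (Sum.inr k)) a * (x a ^ (h : ℕ) / y a) * w a with hY
  set A : Matrix (Fin p) (Fin p) ℂ := Matrix.of fun g g' =>
    -∑ a, x a ^ ((g : ℕ) + (q + g')) / hd x a with hA
  -- the moments
  have hmom : ∀ n : ℕ, n < r → ∑ a, x a ^ n / hd x a = if n = r - 1 then 1 else 0 := by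
    intro n hn
    have h := sum_div_hd hx (G := X ^ n) (by
      rw [degree_X_pow]
      exact_mod_cast hn)
    simp only [eval_pow, eval_X] at h
    rw [h, coeff_X_pow]
    simp only [eq_comm]
  have hsum : ∀ g : Fin r → ℂ, ∑ l : Fin p ⊕ Fin q, g (e1 l) = ∑ a, g a := fun g =>
    Equiv.sum_comp e1 g
  -- first product
  have hprod1 : P1 * Dm * Wm.submatrix e1 f = Matrix.fromBlocks A 0
      (Matrix.of fun k g' => ∑ a, J (e (Sum.inr k)) a * (x a ^ (q + (g' : Fin p) : ℕ) / y a) *
        w a) Y := by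
    refine Matrix.ext fun k k' => ?_
    rw [Matrix.mul_apply]
    have h1 : ∀ l, (P1 * Dm) k l * Wm.submatrix e1 f l k' =
        (fun a => Sum.elim (fun g : Fin p => x a ^ (g : ℕ) * y a / F a)
          (fun k => J (e (Sum.inr k)) a) k * w a * (x a ^ (f k' : ℕ) / y a)) (e1 l) := by
      intro l
      rw [Matrix.mul_diagonal]
      rfl
    rw [sum_congr rfl fun l _ => h1 l, hsum (fun a => Sum.elim
      (fun g : Fin p => x a ^ (g : ℕ) * y a / F a)
      (fun k => J (e (Sum.inr k)) a) k * w a * (x a ^ (f k' : ℕ) / y a))]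
    rcases k with g | k <;> rcases k' with g' | h
    · rw [Matrix.fromBlocks_apply₁₁]
      simp only [Sum.elim_inl, hA, Matrix.of_apply, hw]
      rw [← sum_neg_distrib]
      refine sum_congr rfl fun a _ => ?_
      rw [hf1]
      have h2 := hy a
      have h3 := hF a
      have h4 := hd_ne hx a
      rw [pow_add (x a) (g : ℕ) (q + g')]
      field_simp
    · rw [Matrix.fromBlocks_apply₁₂]
      simp only [Sum.elim_inl, hw, Matrix.zero_apply]
      have h5 : ∑ a, x a ^ ((g : ℕ) + h) / hd x a = 0 := by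
        rw [hmom _ (by omega), if_neg (by omega)]
      rw [← neg_eq_zero, ← sum_neg_distrib, ← h5]
      refine sum_congr rfl fun a _ => ?_
      rw [hf2]
      have h2 := hy a
      have h3 := hF a
      have h4 := hd_ne hx a
      rw [pow_add]
      field_simp
    · rw [Matrix.fromBlocks_apply₂₁]
      simp only [Sum.elim_inr, Matrix.of_apply]
      refine sum_congr rfl fun a _ => ?_
      rw [hf1]
      ring
    · rw [Matrix.fromBlocks_apply₂₂]
      simp only [Sum.elim_inr, Matrix.of_apply, hY]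
      refine sum_congr rfl fun a _ => ?_
      rw [hf2]
      ring
  have hdet1 : P1.det * (∏ l, w (e1 l)) * (Wm.submatrix e1 f).det = A.det * Y.det := by
    rw [← Matrix.det_fromBlocks_zero₁₂ A _ Y, ← hprod1, Matrix.det_mul, Matrix.det_mul,
      Matrix.det_diagonal]
  -- second product
  have hprod2 : (M2.submatrix (Equiv.sumComm (Fin p) (Fin q)) e1) * Dm *
      (Jm.submatrix e e1).transpose = Matrix.fromBlocks
        (Matrix.diagonal fun k : Fin p => N (e (Sum.inl k))) 0
        (Matrix.of fun h k' => ∑ a, (x a ^ ((h : Fin q) : ℕ) / y a) * w a *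
          J (e (Sum.inl k')) a) Y.transpose := by
    refine Matrix.ext fun k k' => ?_
    rw [Matrix.mul_apply]
    have h1 : ∀ l, ((M2.submatrix (Equiv.sumComm (Fin p) (Fin q)) e1) * Dm) k l *
        (Jm.submatrix e e1).transpose l k' =
        (fun a => Sum.elim (fun h : Fin q => x a ^ (h : ℕ) / y a)
          (fun k => J (e (Sum.inl k)) a) (Equiv.sumComm (Fin p) (Fin q) k) * w a *
            J (e k') a) (e1 l) := by
      intro l
      rw [Matrix.mul_diagonal]
      rfl
    rw [sum_congr rfl fun l _ => h1 l, hsum (fun a => Sum.elim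
      (fun h : Fin q => x a ^ (h : ℕ) / y a)
      (fun k => J (e (Sum.inl k)) a) (Equiv.sumComm (Fin p) (Fin q) k) * w a * J (e k') a)]
    rcases k with k | h <;> rcases k' with k' | k'
    · rw [Matrix.fromBlocks_apply₁₁, Matrix.diagonal_apply]
      simp only [Equiv.sumComm_apply, Sum.swap_inl, Sum.elim_inr]
      have h2 := hJ (e (Sum.inl k)) (e (Sum.inl k'))
      have h3 : (e (Sum.inl k) = e (Sum.inl k')) ↔ k = k' := by
        rw [e.injective.eq_iff, Sum.inl.injEq]
      simp only [h3] at h2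
      rw [← h2]
      refine sum_congr rfl fun a _ => ?_
      simp only [hw]
      ring
    · rw [Matrix.fromBlocks_apply₁₂]
      simp only [Equiv.sumComm_apply, Sum.swap_inl, Sum.elim_inr, Matrix.zero_apply]
      have h2 := hJ (e (Sum.inl k)) (e (Sum.inr k'))
      rw [if_neg (fun h => by
        have := e.injective h
        simp at this)] at h2
      rw [← h2]
      refine sum_congr rfl fun a _ => ?_
      simp only [hw]
      ring
    · rw [Matrix.fromBlocks_apply₂₁]
      simp only [Equiv.sumComm_apply, Sum.swap_inr, Sum.elim_inl, Matrix.of_apply]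
    · rw [Matrix.fromBlocks_apply₂₂]
      simp only [Equiv.sumComm_apply, Sum.swap_inr, Sum.elim_inl, Matrix.transpose_apply, hY,
        Matrix.of_apply]
      refine sum_congr rfl fun a _ => ?_
      ring
  have hdet2 : (M2.submatrix (Equiv.sumComm (Fin p) (Fin q)) e1).det * (∏ l, w (e1 l)) *
      (Jm.submatrix e e1).det = (∏ k : Fin p, N (e (Sum.inl k))) * Y.det := by
    have h9 := congrArg Matrix.det hprod2
    rw [Matrix.det_mul, Matrix.det_mul, Matrix.det_fromBlocks_zero₁₂, Matrix.det_transpose,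
      Matrix.det_transpose, Matrix.det_diagonal, Matrix.det_diagonal] at h9
    exact h9
  -- `det A`
  have hdetA : A.det = ε4⁻¹ * (-1) ^ p := by
    have h5 : (A.submatrix id Fin.revPerm).det = (-1) ^ p := by
      rw [Matrix.det_of_isLowerTriangular]
      · have : ∀ i : Fin p, A.submatrix id Fin.revPerm i i = -1 := by
          intro i
          rw [Matrix.submatrix_apply, hA, Matrix.of_apply, hmom, if_pos]
          · rw [id, Fin.revPerm_apply, Fin.val_rev]
            omega
          · rw [id, Fin.revPerm_apply, Fin.val_rev]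
            omega
        rw [prod_congr rfl fun i _ => this i]
        simp
      · intro i j hij
        have h' : i < j := hij
        have h'' := Fin.lt_def.1 h'
        rw [Matrix.submatrix_apply, hA, Matrix.of_apply, hmom, if_neg, neg_zero]
        · rw [id, Fin.revPerm_apply, Fin.val_rev]
          omega
        · rw [id, Fin.revPerm_apply, Fin.val_rev]
          omega
    have h6 := H4 A
    rw [h5] at h6
    have h7 : A.submatrix id (Equiv.refl (Fin p)) = A := by
      ext i j
      rfl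
    rw [h7] at h6
    rw [h6]
    field_simp
  -- `det Wm`
  have hdetW : Wm.det = vdm x * (∏ a, y a)⁻¹ := by
    have h5 : Wm = Matrix.diagonal (fun a => (y a)⁻¹) * Matrix.vandermonde x := by
      ext a h
      rw [Matrix.diagonal_mul, Matrix.vandermonde_apply, hWm, Matrix.of_apply, div_eq_mul_inv,
        mul_comm]
    rw [h5, Matrix.det_mul, Matrix.det_diagonal, det_vdm, prod_inv_distrib, mul_comm]
  have h7 : Wm.submatrix id (Equiv.refl (Fin r)) = Wm := by
    ext i j
    rfl
  have e1' := H1 Wm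
  rw [h7, hdetW] at e1'
  have e2' := H2 M2
  have e3' := H3 Jm
  have hd' : ∏ l, w (e1 l) ≠ 0 := prod_ne_zero_iff.2 fun l _ => hwne _
  have hM2' : (Matrix.of fun (k l : Fin q ⊕ Fin p) => Sum.elim (fun h : Fin q =>
      x (e2 l) ^ (h : ℕ) / y (e2 l)) (fun k => J (e (Sum.inl k)) (e2 l)) k) =
      M2.submatrix id e2 := by
    ext k l
    rfl
  have hJ' : (Matrix.of fun i j : ι => J i (eJ j)) = Jm.submatrix id eJ := by
    ext i j
    rfl
  rw [hM2', hJ']
  rw [e1', hdetA] at hdet1
  rw [e2', e3'] at hdet2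
  generalize (M2.submatrix id e2).det = dM2 at *
  generalize (Jm.submatrix id eJ).det = dJ at *
  generalize (∏ k : Fin p, N (e (Sum.inl k))) = NP at *
  generalize P1.det = dP1 at *
  generalize Y.det = dY at *
  generalize (∏ l, w (e1 l)) = d at *
  generalize (∏ a, y a)⁻¹ = yi at *
  have key : d * (dP1 * vdm x * yi * NP) =
      d * (ε1⁻¹ * (ε4⁻¹ * (-1) ^ p) * ε2 * ε3 * dM2 * dJ) := by
    have h8 : ε1 * (d * (dP1 * vdm x * yi * NP)) =
        (ε4⁻¹ * (-1) ^ p) * (NP * dY) := by
      linear_combination NP * hdet1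
    have h9 : d * (dP1 * vdm x * yi * NP) = ε1⁻¹ * ((ε4⁻¹ * (-1) ^ p) * (NP * dY)) := by
      rw [← h8]
      field_simp
    rw [h9, ← hdet2]
    ring
  exact mul_left_cancel₀ hd' key

/-- The determinant of `(H, conj H')` over the frame `e_1, i e_1, e_2, i e_2, …`. -/
theorem ha (ρ : Fin r ⊕ Fin r ≃ Fin (2 * r)) :
    ∃ c : ℂ, c ≠ 0 ∧ ∀ (H H' : Matrix (Fin r) (Fin r) ℂ)
      (B : Matrix (Fin (2 * r)) (Fin (2 * r)) ℂ),
      (∀ k (l : Fin (2 * r)), B (ρ (Sum.inl k)) l =
        H k ⟨l / 2, by omega⟩ * (if l.1 % 2 = 0 then 1 else Complex.I)) →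
      (∀ k (l : Fin (2 * r)), B (ρ (Sum.inr k)) l =
        (starRingEnd ℂ) (H' k ⟨l / 2, by omega⟩) * (if l.1 % 2 = 0 then 1 else -Complex.I)) →
      B.det = c * H.det * (starRingEnd ℂ) H'.det := by
  classical
  -- the columns
  let σ : Fin r ⊕ Fin r ≃ Fin (2 * r) :=
    { toFun := Sum.elim (fun a => ⟨2 * a, by omega⟩) (fun a => ⟨2 * a + 1, by omega⟩)
      invFun := fun l => if l.1 % 2 = 0 then Sum.inl ⟨l / 2, by omega⟩
        else Sum.inr ⟨l / 2, by omega⟩
      left_inv := by
        rintro (a | a)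
        · have h : (2 * a.1) % 2 = 0 := by omega
          simp only [Sum.elim_inl, h, if_true]
          congr 1
          ext
          simp
        · have h : ¬ (2 * a.1 + 1) % 2 = 0 := by omega
          simp only [Sum.elim_inr, if_neg h]
          congr 1
          ext
          simp only
          omega
      right_inv := by
        intro l
        by_cases h : l.1 % 2 = 0
        · simp only [if_pos h, Sum.elim_inl]
          ext
          simp only
          omega
        · simp only [if_neg h, Sum.elim_inr]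
          ext
          simp only
          omega }
  obtain ⟨ε, hε, h⟩ := exists_sign2 (m := Fin (2 * r)) (n := Fin (2 * r)) ρ σ (Equiv.refl _)
  refine ⟨ε⁻¹ * (-2 * Complex.I) ^ r, mul_ne_zero (inv_ne_zero hε) (pow_ne_zero _
    (mul_ne_zero (by norm_num) Complex.I_ne_zero)), ?_⟩
  intro H H' B h1 h2
  have h3 := h B
  have h4 : B.submatrix id (Equiv.refl (Fin (2 * r))) = B := by
    ext i j
    rfl
  rw [h4] at h3
  have h5 : B.submatrix ρ σ = Matrix.fromBlocks H 0 0 (H'.map (starRingEnd ℂ)) *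
      Matrix.fromBlocks 1 (Complex.I • (1 : Matrix (Fin r) (Fin r) ℂ)) 1
        ((-Complex.I) • (1 : Matrix (Fin r) (Fin r) ℂ)) := by
    rw [Matrix.fromBlocks_multiply]
    ext k l
    rcases k with k | k <;> rcases l with l | l
    · rw [Matrix.submatrix_apply, h1, Matrix.fromBlocks_apply₁₁]
      have h6 : (σ (Sum.inl l)).1 = 2 * l := rfl
      have h7 : (2 * l.1) % 2 = 0 := by omega
      rw [if_pos (by rw [h6]; exact h7)]
      simp only [h6, mul_one, add_zero, Matrix.mul_one]
      congr 1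
      ext
      simp
    · rw [Matrix.submatrix_apply, h1, Matrix.fromBlocks_apply₁₂]
      have h6 : (σ (Sum.inr l)).1 = 2 * l + 1 := rfl
      have h7 : ¬ (2 * l.1 + 1) % 2 = 0 := by omega
      rw [if_neg (by rw [h6]; exact h7)]
      simp only [h6, zero_mul, add_zero, Matrix.mul_smul, Matrix.mul_one, Matrix.smul_apply,
        smul_eq_mul, mul_comm (H k _)]
      congr 2
      ext
      simp only
      omega
    · rw [Matrix.submatrix_apply, h2, Matrix.fromBlocks_apply₂₁]
      have h6 : (σ (Sum.inl l)).1 = 2 * l := rfl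
      have h7 : (2 * l.1) % 2 = 0 := by omega
      rw [if_pos (by rw [h6]; exact h7)]
      simp only [h6, mul_one, zero_mul, zero_add, Matrix.mul_one, Matrix.map_apply]
      congr 2
      ext
      simp
    · rw [Matrix.submatrix_apply, h2, Matrix.fromBlocks_apply₂₂]
      have h6 : (σ (Sum.inr l)).1 = 2 * l + 1 := rfl
      have h7 : ¬ (2 * l.1 + 1) % 2 = 0 := by omega
      rw [if_neg (by rw [h6]; exact h7)]
      simp only [h6, zero_mul, zero_add, Matrix.mul_smul, Matrix.mul_one, Matrix.smul_apply,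
        smul_eq_mul, Matrix.map_apply, mul_comm _ (-Complex.I)]
      congr 3
      ext
      simp only
      omega
  have h8 : (Matrix.fromBlocks 1 (Complex.I • (1 : Matrix (Fin r) (Fin r) ℂ)) 1
        ((-Complex.I) • (1 : Matrix (Fin r) (Fin r) ℂ))).det = (-2 * Complex.I) ^ r := by
    rw [Matrix.det_fromBlocks_one₁₁, Matrix.one_mul, ← sub_smul, Matrix.det_smul,
      Matrix.det_one, mul_one, Fintype.card_fin]
    congr 1
    ring
  rw [h5, Matrix.det_mul, h8, Matrix.det_fromBlocks_zero₂₁] at h3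
  have h9 : (H'.map (starRingEnd ℂ)).det = (starRingEnd ℂ) H'.det :=
    (RingHom.map_det (starRingEnd ℂ) H').symm
  rw [h9] at h3
  have h10 : B.det = ε⁻¹ * (H.det * (starRingEnd ℂ) H'.det * (-2 * Complex.I) ^ r) := by
    rw [h3]
    field_simp
  rw [h10]
  ring

end SE
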