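import Pool.Agent.Lib.SE.S2.GStmt
import Pool.Agent.Lib.SE.S4.Cv
import Pool.Agent.Lib.SE.Defs

/-!
# PROJECT SE, G1: the output of the algebra, for the curve `y ^ m = ∏ (x - s_j) ^ b_j` (helper81)

Everything with natural exponents, as in `Defs.lean` and `Wf`.
-/

set_option autoImplicit false

open Finset

noncomputable section

namespace SE

open SE.S4

variable {r : ℕ}

/-- `u_j(x)` on the leaves. -/
abbrev uL (τ : Tr) (eL : Fin (r + 1) ≃ τ.L) (s : Fin (r + 1) → ℂ) (x : Fin r → ℂ) : τ.L → ℂ :=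
  fun l => ux s x (eL.symm l)

/-- `t_ν(x)`. -/
def tN (τ : Tr) (eL : Fin (r + 1) ≃ τ.L) (s : Fin (r + 1) → ℂ) (x : Fin r → ℂ) (ν : τ.N) : ℂ :=
  τ.tt (uL τ eL s x) ν

/-- `∂t_ν / ∂x_a`. -/
def jN (τ : Tr) (eL : Fin (r + 1) ≃ τ.L) (s : Fin (r + 1) → ℂ) (x : Fin r → ℂ) (ν : τ.N)
    (a : Fin r) : ℂ :=
  τ.dt (uL τ eL s x) (fun l => dux s x (eL.symm l) a) ν

/-- The sums of the `b_j` over the leaves on the left. -/
def cL (τ : Tr) (eL : Fin (r + 1) ≃ τ.L) (b : Fin (r + 1) → ℕ) (ν : τ.N) : ℕ :=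
  (τ.lr (fun l => b (eL.symm l)) ν).1

/-- The sums of the `b_j` over the leaves on the right. -/
def cR (τ : Tr) (eL : Fin (r + 1) ≃ τ.L) (b : Fin (r + 1) → ℕ) (ν : τ.N) : ℕ :=
  (τ.lr (fun l => b (eL.symm l)) ν).2

/-- The good set. -/
def gD (τ : Tr) (eL : Fin (r + 1) ≃ τ.L) (s : Fin (r + 1) → ℂ) : Set (Fin r → ℂ) :=
  {x | Function.Injective x ∧ (∀ a j, x a ≠ s j) ∧ τ.Ok (uL τ eL s x)}

/-- The value of `x ^ i y ^ u dx / ∏_j (x - s_j) ^ (1 + [u b_j / m])` at `∂/∂x`. -/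
def fA (m : ℕ) (s : Fin (r + 1) → ℂ) (b : Fin (r + 1) → ℕ) (u i : ℕ) (x y : ℂ) : ℂ :=
  x ^ i * y ^ u / ∏ j, (x - s j) ^ (1 + u * b j / m)

/-- The value of the form of the curve `v ^ m = t ^ c (1 - t) ^ d` at the node `ν`. -/
def fN (m : ℕ) (τ : Tr) (eL : Fin (r + 1) ≃ τ.L) (s : Fin (r + 1) → ℂ) (b : Fin (r + 1) → ℕ)
    (u : ℕ) (x : Fin r → ℂ) (ν : τ.N) (v : ℂ) : ℂ :=
  Wf m (cL τ eL b ν) (cR τ eL b ν) u (tN τ eL s x ν) v / (tN τ eL s x ν * (1 - tN τ eL s x ν))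

/-- A node is of type `P` for `u`. -/
def isP (m : ℕ) (τ : Tr) (eL : Fin (r + 1) ≃ τ.L) (b : Fin (r + 1) → ℕ) (u : ℕ) (ν : τ.N) : Prop :=
  (u * cL τ eL b ν) % m + (u * cR τ eL b ν) % m < m

/-- No sum at a node is divisible by `m`. -/
def Gt (m : ℕ) (τ : Tr) (eL : Fin (r + 1) ≃ τ.L) (b : Fin (r + 1) → ℕ) : Prop :=
  ∀ ν, ¬ m ∣ cL τ eL b ν ∧ ¬ m ∣ cR τ eL b ν ∧ ¬ m ∣ cL τ eL b ν + cR τ eL b ν

/-- The sheets over `x`. -/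
def Shs (m : ℕ) (τ : Tr) (eL : Fin (r + 1) ≃ τ.L) (s : Fin (r + 1) → ℂ) (b : Fin (r + 1) → ℕ)
    (κ : ℂ) (x : Fin r → ℂ) (y : Fin r → ℂ) (v : τ.N → ℂ) : Prop :=
  (∀ a, y a ^ m = ∏ j, (x a - s j) ^ b j) ∧
    (∀ ν, v ν ^ m = tN τ eL s x ν ^ cL τ eL b ν * (1 - tN τ eL s x ν) ^ cR τ eL b ν) ∧
    ∏ a, y a = κ * ∏ ν, v ν

variable {p q : ℕ}

/-- The rows of `D_1`: `A_(u,i)`, `i < p`, and the forms `η_(m-u)` of the nodes `e (inr i)`. -/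
def H1 (m : ℕ) (τ : Tr) (eL : Fin (r + 1) ≃ τ.L) (s : Fin (r + 1) → ℂ) (b : Fin (r + 1) → ℕ)
    (e : Fin p ⊕ Fin q ≃ τ.N) (u : ℕ) (x y : Fin r → ℂ) (v : τ.N → ℂ) (k : Fin p ⊕ Fin q)
    (a : Fin r) : ℂ :=
  Sum.elim (fun i : Fin p => fA m s b u i.1 (x a) (y a))
    (fun i : Fin q => fN m τ eL s b (m - u) x (e (Sum.inr i)) (v (e (Sum.inr i))) *
      jN τ eL s x (e (Sum.inr i)) a) k

/-- The rows of `D_2`: the forms `η_u` of the nodes `e (inl i)`, and `A_(m-u,j)`, `j < q`. -/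
def H2 (m : ℕ) (τ : Tr) (eL : Fin (r + 1) ≃ τ.L) (s : Fin (r + 1) → ℂ) (b : Fin (r + 1) → ℕ)
    (e : Fin p ⊕ Fin q ≃ τ.N) (u : ℕ) (x y : Fin r → ℂ) (v : τ.N → ℂ) (k : Fin p ⊕ Fin q)
    (a : Fin r) : ℂ :=
  Sum.elim (fun i : Fin p => fN m τ eL s b u x (e (Sum.inl i)) (v (e (Sum.inl i))) *
      jN τ eL s x (e (Sum.inl i)) a)
    (fun j : Fin q => fA m s b (m - u) j.1 (x a) (y a)) k

/-- **(VAL)** `D_1 = C_u D_2` on the sheets, `C_u ≠ 0` constant. `ec` is any numbering of the columns.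

PROOF (S_G, S_G1, S_G2): `H1`, `H2` are the matrices `M1`, `M2` for `y_u(a) = y^u / ∏ (x - s_j)^[u b_j/m]`
and `v_u(ν) = Wf … u`. -/
def S_VAL : Prop :=
  ∀ (m r : ℕ) (s : Fin (r + 1) → ℂ) (b : Fin (r + 1) → ℕ), HC.SE.IsCov m s b →
    ∀ (τ : Tr) (eL : Fin (r + 1) ≃ τ.L), Gt m τ eL b → ∀ κ : ℂ, κ ≠ 0 →
    ∀ u : ℕ, u < m → u.Coprime m → ∀ (p q : ℕ) (e : Fin p ⊕ Fin q ≃ τ.N)
    (ec : Fin p ⊕ Fin q ≃ Fin r),
    (∀ i, isP m τ eL b u (e (Sum.inl i))) → (∀ i, ¬ isP m τ eL b u (e (Sum.inr i))) →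
    ∃ C : ℂ, C ≠ 0 ∧ ∀ x ∈ gD τ eL s, ∀ y v, Shs m τ eL s b κ x y v →
      (Matrix.of fun k a => H1 m τ eL s b e u x y v k (ec a)).det =
        C * (Matrix.of fun k a => H2 m τ eL s b e u x y v k (ec a)).det

/-- **(POS)** `D_2` is not `0` on some sheet over every good `x` (`r > 0`).

PROOF (S_VAL, S_NV, S_G1).  By (VAL) show `D_1 ≠ 0`.  Sheets exist (`Sheet.lean`, `sheet_nonempty`, with
`∏_a f(x_a) = κ^m ∏_ν G_ν`: `prod_f` of Lag.lean and (T4), `∑ u = 1`).  Take a sheet `(y, v)`, apply (NV) for `m`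
to `y_u(a) = y_a^u / ∏ (x_a - s_j)^[u b_j / m]` and `v_ν := v_u(ν)` (`H1` is `M1` for these, as in
(VAL)): there are `ζ_a` with `ζ_a ^ m = 1` and `D_1 ≠ 0` for `ζ_a y_u(a)`.  `u` is prime to `m`, so
`ζ_a = ξ_a ^ u`, `ξ_a ^ m = 1`; replace `y_a` by `ξ_a y_a` and one `v_ν0` by `(∏ ξ_a) v_ν0`: this is a sheet,
and a change of `v` by roots of unity only multiplies rows by constants `≠ 0`. -/
def S_POS : Prop :=
  ∀ (m r : ℕ) (s : Fin (r + 1) → ℂ) (b : Fin (r + 1) → ℕ), HC.SE.IsCov m s b → 0 < r →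
    ∀ (τ : Tr) (eL : Fin (r + 1) ≃ τ.L), Gt m τ eL b →
    ∀ κ : ℂ, κ ^ m = ∏ j, ((-1) ^ r * Fd s j) ^ b j →
    ∀ u : ℕ, u < m → u.Coprime m → ∀ (p q : ℕ) (e : Fin p ⊕ Fin q ≃ τ.N)
    (ec : Fin p ⊕ Fin q ≃ Fin r),
    (∀ i, isP m τ eL b u (e (Sum.inl i))) → (∀ i, ¬ isP m τ eL b u (e (Sum.inr i))) →
    ∀ x ∈ gD τ eL s, ∃ y v, Shs m τ eL s b κ x y v ∧
      (Matrix.of fun k a => H2 m τ eL s b e u x y v k (ec a)).det ≠ 0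

/-- **(CNT)** The counting: `p` is the number of the differentials `A_(u,i)`, `q` that of the
`A_(m-u,j)`, and the nodes of type `P` for `m - u` are those which are not of type `P` for `u`.

PROOF (S_T6).  `n_j = (u b_j) % m`; `(u c) % m = (∑_L n_j) % m`, so by (T6) `q = (∑_j n_j) / m`; `m` does not divide
`∑ n_j ≡ u ∑ b_j`; `p + q = r` (number of nodes, from `eL`: a tree has one node less than leaves; or from (T6)
and `e`); `m i + ∑ n_j < m r` iff `i + (∑ n_j) / m < r` (as `m ∤ ∑ n_j`).  For `m - u`: `((m-u) b_j) % m = m - n_j`,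
`∑ = m (r+1) - ∑ n_j`, quotient by `m`: `r - q`.  Third: `(m-u) c % m = m - (u c) % m`. -/
def S_CNT : Prop :=
  ∀ (m r : ℕ) (s : Fin (r + 1) → ℂ) (b : Fin (r + 1) → ℕ), HC.SE.IsCov m s b →
    ∀ (τ : Tr) (eL : Fin (r + 1) ≃ τ.L), Gt m τ eL b →
    ∀ u : ℕ, u < m → u.Coprime m → ∀ (p q : ℕ) (e : Fin p ⊕ Fin q ≃ τ.N),
    (∀ i, isP m τ eL b u (e (Sum.inl i))) → (∀ i, ¬ isP m τ eL b u (e (Sum.inr i))) →
    (∀ i : ℕ, m * i + ∑ j, (u * b j) % m < m * r ↔ i < p) ∧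
    (∀ i : ℕ, m * i + ∑ j, ((m - u) * b j) % m < m * r ↔ i < q) ∧
    (∀ ν, isP m τ eL b (m - u) ν ↔ ¬ isP m τ eL b u ν)

/-- **(TRE)** The tree exists.

PROOF (S_T7): not all `2 b_j ≡ 0 mod m`: otherwise `m / gcd(m, 2)` divides all `b_j` and `m`; by the last
condition of `IsCov` it is `1`, so `m ≤ 2`. The number of nodes is `r` (induction: one less than leaves). -/
def S_TRE : Prop :=
  ∀ (m r : ℕ) (s : Fin (r + 1) → ℂ) (b : Fin (r + 1) → ℕ), HC.SE.IsCov m s b →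
    ∃ (τ : Tr) (eL : Fin (r + 1) ≃ τ.L) (_ : Fin r ≃ τ.N), Gt m τ eL b

end SE
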