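import Pool.Agent.Lib.SE.S2.Det

/-!
# PROJECT SE, S2: the identities (X1) - (X4)

`E_{la} = ∂u_l / ∂x_a = u_l / (x_a - s_l)`, `F(X) = ∏ (X - s_l)`, `h'(x_a) = ∏_{b ≠ a} (x_a - x_b)`.

* (X1) `∑_a G(x_a) / h'(x_a) = coeff_{r-1} G` for `deg G < r`;
* (X2) `∑_a E_{la} E_{l'a} (-F(x_a) / h'(x_a)) = δ_{ll'} u_l - u_l u_{l'}`;
* (X3) `det [u | E] = (-1)^r V(x) / V(s)`;
* (X4) `∑_l u_l / (x_a - s_l) = 0`.
-/

set_option autoImplicit false

open Finset Polynomial

noncomputable section

namespace SE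

variable {r : ℕ}

/-- `h'(x_a) = ∏_{b ≠ a} (x_a - x_b)` -/
def hd (x : Fin r → ℂ) (a : Fin r) : ℂ := ∏ b ∈ univ.erase a, (x a - x b)

lemma hd_ne {x : Fin r → ℂ} (hx : Function.Injective x) (a : Fin r) : hd x a ≠ 0 := by
  unfold hd
  rw [Finset.prod_ne_zero_iff]
  intro l hl
  rw [Finset.mem_erase] at hl
  exact sub_ne_zero.mpr fun h => hl.1 (hx h).symm

/-- (X1) -/
theorem sum_div_hd {x : Fin r → ℂ} (hx : Function.Injective x) {G : ℂ[X]}
    (hG : G.degree < (r : WithBot ℕ)) :
    ∑ a, G.eval (x a) / hd x a = G.coeff (r - 1) := by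
  have h := Lagrange.coeff_eq_sum (s := (univ : Finset (Fin r))) (v := x) hx.injOn (P := G)
    (by simpa using hG)
  rw [card_univ, Fintype.card_fin] at h
  rw [h]
  rfl

/-- Lagrange interpolation at the `x_a`. -/
theorem eval_lag {x : Fin r → ℂ} (hx : Function.Injective x) {G : ℂ[X]}
    (hG : G.degree < (r : WithBot ℕ)) {y : ℂ} (hy : ∀ a, x a ≠ y) :
    G.eval y = (∏ b, (y - x b)) * ∑ a, G.eval (x a) / ((y - x a) * hd x a) := by
  have h := Lagrange.eq_interpolate (s := (univ : Finset (Fin r))) (v := x) hx.injOn (f := G)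
    (by simpa using hG)
  have h2 := congrArg (Polynomial.eval y) h
  rw [Lagrange.interpolate_apply, eval_finsetSum] at h2
  rw [h2, mul_sum]
  refine sum_congr rfl fun a _ => ?_
  rw [eval_mul, eval_C]
  have h3 : eval y (Lagrange.basis univ x a) = (∏ b ∈ univ.erase a, (y - x b)) / hd x a := by
    rw [Lagrange.basis, eval_prod, hd, ← prod_div_distrib]
    refine prod_congr rfl fun b _ => ?_
    rw [Lagrange.basisDivisor]
    simp only [eval_mul, eval_C, eval_sub, eval_X]
    rw [div_eq_inv_mul]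
  rw [h3, ← mul_prod_erase univ (fun b => y - x b) (mem_univ a)]
  have h4 : y - x a ≠ 0 := sub_ne_zero.2 (hy a).symm
  have h5 := hd_ne hx a
  field_simp

/-- `∏_{j ≠ l} (X - s_j)` -/
def Pn {n : ℕ} (s : Fin n → ℂ) (l : Fin n) : ℂ[X] := ∏ j ∈ univ.erase l, (X - C (s j))

theorem monic_Pn {n : ℕ} (s : Fin n → ℂ) (l : Fin n) : (Pn s l).Monic :=
  monic_prod_of_monic _ _ fun _ _ => monic_X_sub_C _

theorem natDegree_Pn (s : Fin (r + 1) → ℂ) (l : Fin (r + 1)) : (Pn s l).natDegree = r := by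
  rw [Pn, natDegree_prod_of_monic _ _ fun _ _ => monic_X_sub_C _]
  simp [card_erase_of_mem]

theorem eval_Pn {n : ℕ} (s : Fin n → ℂ) (l : Fin n) (y : ℂ) :
    (Pn s l).eval y = ∏ j ∈ univ.erase l, (y - s j) := by
  simp [Pn, eval_prod]

theorem eval_Pn_self (s : Fin (r + 1) → ℂ) (l : Fin (r + 1)) : (Pn s l).eval (s l) = Fd s l := by
  rw [eval_Pn]
  rfl

/-- (X2), diagonal: `∑_a F(x_a) / ((x_a - s_l)^2 h'(x_a)) = 1 - 1 / u_l`. -/
theorem sum_diag {s : Fin (r + 1) → ℂ} (hs : Function.Injective s) {x : Fin r → ℂ}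
    (hx : Function.Injective x) (hxs : ∀ a j, x a ≠ s j) (l : Fin (r + 1)) :
    ∑ a, (∏ j, (x a - s j)) / ((x a - s l) ^ 2 * hd x a) = 1 - 1 / ux s x l := by
  have hm : ∀ b ∈ (univ : Finset (Fin r)), (X - C (x b) : ℂ[X]).Monic := fun b _ =>
    monic_X_sub_C _
  have hmon : (∏ b : Fin r, (X - C (x b) : ℂ[X])).Monic := monic_prod_of_monic _ _ hm
  have hnd : (∏ b : Fin r, (X - C (x b) : ℂ[X])).natDegree = r := by
    rw [natDegree_prod_of_monic _ _ hm]
    simp
  have hdeg : (Pn s l - ∏ b : Fin r, (X - C (x b) : ℂ[X])).degree < (r : WithBot ℕ) := by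
    have h1 : (Pn s l).degree = (r : WithBot ℕ) := by
      rw [degree_eq_natDegree (monic_Pn s l).ne_zero, natDegree_Pn]
    have h2 : (∏ b : Fin r, (X - C (x b) : ℂ[X])).degree = (r : WithBot ℕ) := by
      rw [degree_eq_natDegree hmon.ne_zero, hnd]
    have := degree_sub_lt_left (h1.trans h2.symm) (monic_Pn s l).ne_zero
      ((monic_Pn s l).leadingCoeff.trans hmon.leadingCoeff.symm)
    rwa [h1] at this
  have h := eval_lag hx hdeg (y := s l) (fun a => hxs a l)
  have hev : ∀ a, eval (x a) (Pn s l - ∏ b : Fin r, (X - C (x b) : ℂ[X])) =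
      ∏ j ∈ univ.erase l, (x a - s j) := by
    intro a
    rw [eval_sub, eval_Pn, eval_prod, prod_eq_zero (mem_univ a) (by simp), sub_zero]
  have hev2 : eval (s l) (Pn s l - ∏ b : Fin r, (X - C (x b) : ℂ[X])) =
      Fd s l - ∏ b, (s l - x b) := by
    rw [eval_sub, eval_Pn_self, eval_prod]
    simp
  rw [hev2] at h
  have hsum : ∑ a, eval (x a) (Pn s l - ∏ b : Fin r, (X - C (x b) : ℂ[X])) /
      ((s l - x a) * hd x a) = - ∑ a, (∏ j, (x a - s j)) / ((x a - s l) ^ 2 * hd x a) := by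
    rw [← sum_neg_distrib]
    refine sum_congr rfl fun a _ => ?_
    rw [hev, ← mul_prod_erase univ (fun j => x a - s j) (mem_univ l)]
    have h1 : x a - s l ≠ 0 := sub_ne_zero.2 (hxs a l)
    have h2 : s l - x a = -(x a - s l) := by ring
    have h3 := hd_ne hx a
    rw [h2]
    field_simp
  rw [hsum] at h
  have hB : ∏ b, (s l - x b) ≠ 0 := prod_ne_zero_iff.2 fun b _ => sub_ne_zero.2 (hxs b l).symm
  have hFd := Fd_ne hs l
  rw [ux, one_div_div]
  generalize (∑ a, (∏ j, (x a - s j)) / ((x a - s l) ^ 2 * hd x a)) = S at *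
  generalize (∏ b, (s l - x b)) = B at *
  field_simp
  linear_combination h

/-- (X2), off the diagonal: `∑_a F(x_a) / ((x_a - s_l) (x_a - s_l') h'(x_a)) = 1`. -/
theorem sum_off {s : Fin (r + 1) → ℂ} {x : Fin r → ℂ} (hr : 0 < r)
    (hx : Function.Injective x) (hxs : ∀ a j, x a ≠ s j) {l l' : Fin (r + 1)} (hl : l ≠ l') :
    ∑ a, (∏ j, (x a - s j)) / ((x a - s l) * (x a - s l') * hd x a) = 1 := by
  have hm : ∀ b ∈ (univ.erase l).erase l', (X - C (s b) : ℂ[X]).Monic := fun b _ =>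
    monic_X_sub_C _
  have hmon : (∏ b ∈ (univ.erase l).erase l', (X - C (s b) : ℂ[X])).Monic :=
    monic_prod_of_monic _ _ hm
  have hl' : l' ∈ (univ.erase l : Finset (Fin (r + 1))) := mem_erase.2 ⟨hl.symm, mem_univ _⟩
  have hnd : (∏ b ∈ (univ.erase l).erase l', (X - C (s b) : ℂ[X])).natDegree = r - 1 := by
    rw [natDegree_prod_of_monic _ _ hm]
    simp only [natDegree_X_sub_C, sum_const, smul_eq_mul, mul_one]
    rw [card_erase_of_mem hl', card_erase_of_mem (mem_univ l), card_univ, Fintype.card_fin]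
    omega
  have hdeg : (∏ b ∈ (univ.erase l).erase l', (X - C (s b) : ℂ[X])).degree <
      (r : WithBot ℕ) := by
    rw [degree_eq_natDegree hmon.ne_zero, hnd]
    exact_mod_cast (by omega : r - 1 < r)
  have h := sum_div_hd hx hdeg
  have hc : (∏ b ∈ (univ.erase l).erase l', (X - C (s b) : ℂ[X])).coeff (r - 1) = 1 := by
    have := hmon.coeff_natDegree
    rwa [hnd] at this
  rw [hc] at h
  rw [← h]
  refine sum_congr rfl fun a _ => ?_
  rw [eval_prod, ← mul_prod_erase univ (fun j => x a - s j) (mem_univ l),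
    ← mul_prod_erase (univ.erase l) (fun j => x a - s j) hl']
  have h1 : x a - s l ≠ 0 := sub_ne_zero.2 (hxs a l)
  have h2 : x a - s l' ≠ 0 := sub_ne_zero.2 (hxs a l')
  have h3 := hd_ne hx a
  simp only [eval_sub, eval_X, eval_C]
  field_simp

/-- (X2) `∑_a E_{la} E_{l'a} (-F(x_a) / h'(x_a)) = δ_{ll'} u_l - u_l u_{l'}`. -/
theorem X2 {s : Fin (r + 1) → ℂ} (hs : Function.Injective s) {x : Fin r → ℂ}
    (hx : Function.Injective x) (hxs : ∀ a j, x a ≠ s j) (l l' : Fin (r + 1)) :
    ∑ a, dux s x l a * dux s x l' a * (-(∏ j, (x a - s j)) / hd x a) =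
      (if l = l' then ux s x l else 0) - ux s x l * ux s x l' := by
  have h1 : ∀ a, dux s x l a * dux s x l' a * (-(∏ j, (x a - s j)) / hd x a) =
      -(ux s x l * ux s x l') *
        ((∏ j, (x a - s j)) / ((x a - s l) * (x a - s l') * hd x a)) := by
    intro a
    rw [dux_eq (hxs a l), dux_eq (hxs a l')]
    have h1 : x a - s l ≠ 0 := sub_ne_zero.2 (hxs a l)
    have h2 : x a - s l' ≠ 0 := sub_ne_zero.2 (hxs a l')
    have h3 := hd_ne hx a
    field_simp
  rw [sum_congr rfl fun a _ => h1 a, ← mul_sum]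
  by_cases hl : l = l'
  · subst hl
    rw [if_pos rfl]
    have h2 : ∀ a, (∏ j, (x a - s j)) / ((x a - s l) * (x a - s l) * hd x a) =
        (∏ j, (x a - s j)) / ((x a - s l) ^ 2 * hd x a) := fun a => by rw [sq]
    rw [sum_congr rfl fun a _ => h2 a, sum_diag hs hx hxs l]
    have h3 := ux_ne hs hxs l
    field_simp
    ring
  · have hr : 0 < r := by
      rcases Nat.eq_zero_or_pos r with h | h
      · exact absurd (Fin.ext (by omega)) hl
      · exact h
    rw [if_neg hl, sum_off hr hx hxs hl]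
    ring

/-- (X4) -/
theorem X4 {s : Fin (r + 1) → ℂ} (hs : Function.Injective s) {x : Fin r → ℂ}
    (hxs : ∀ a j, x a ≠ s j) (a : Fin r) : ∑ l, ux s x l / (x a - s l) = 0 := by
  rw [← sum_dux hs x a]
  refine sum_congr rfl fun l _ => ?_
  rw [dux_eq (hxs a l), mul_one_div]

theorem vdm_castSucc (s : Fin (r + 1) → ℂ) :
    vdm s = vdm (fun j : Fin r => s j.castSucc) * ∏ j : Fin r, (s (Fin.last r) - s j.castSucc) := by
  unfold vdm
  rw [Fin.prod_univ_castSucc]
  have h1 : ∏ j ∈ Ioi (Fin.last r), (s j - s (Fin.last r)) = 1 := by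
    rw [prod_eq_one]
    intro j hj
    exact absurd (mem_Ioi.1 hj) (not_lt_of_ge (Fin.le_last j))
  rw [h1, mul_one, ← prod_mul_distrib]
  refine prod_congr rfl fun i _ => ?_
  have h2 : (Ioi i.castSucc : Finset (Fin (r + 1))) =
      insert (Fin.last r) ((Ioi i).map Fin.castSuccEmb) := by
    ext j
    rw [mem_insert, mem_map]
    constructor
    · intro h
      rcases Fin.eq_castSucc_or_eq_last j with ⟨k, rfl⟩ | h'
      · right
        exact ⟨k, mem_Ioi.2 (by simpa using mem_Ioi.1 h), rfl⟩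
      · left
        exact h'
    · rintro (h | ⟨k, hk, rfl⟩)
      · rw [h]
        exact mem_Ioi.2 (Fin.castSucc_lt_last i)
      · exact mem_Ioi.2 (by simpa using mem_Ioi.1 hk)
  rw [h2, prod_insert, prod_map]
  · rw [mul_comm]
    rfl
  · rw [mem_map]
    rintro ⟨k, _, hk⟩
    exact absurd hk (Fin.castSucc_ne_last k)

/-- `det [∂u_l / ∂x_a]_{l < r} = V(x) / V(s)`. -/
theorem det_dux {s : Fin (r + 1) → ℂ} (hs : Function.Injective s) {x : Fin r → ℂ}
    (hxs : ∀ a j, x a ≠ s j) :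
    (Matrix.of fun j a : Fin r => dux s x j.castSucc a).det = vdm x / vdm s := by
  have h3 : (Matrix.of fun j a : Fin r => dux s x j.castSucc a) =
      Matrix.diagonal (fun j : Fin r => ux s x j.castSucc) *
        (Matrix.of fun j a : Fin r => 1 / (x a - s j.castSucc)) := by
    ext j a
    rw [Matrix.diagonal_mul, Matrix.of_apply, Matrix.of_apply, dux_eq (hxs a _)]
  have h4 := det_cauchy (fun j : Fin r => s j.castSucc) x (fun a j => hxs a _)
  rw [h3, Matrix.det_mul, Matrix.det_diagonal, h4, vdm_castSucc s]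
  have hinj : Function.Injective fun j : Fin r => s j.castSucc := fun _ _ h =>
    Fin.castSucc_injective r (hs h)
  have hv := vdm_ne hinj
  have hG : ∏ a, ∏ j : Fin r, (x a - s j.castSucc) ≠ 0 :=
    prod_ne_zero_iff.2 fun a _ => prod_ne_zero_iff.2 fun j _ => sub_ne_zero.2 (hxs a _)
  have hL : ∏ j : Fin r, (s (Fin.last r) - s j.castSucc) ≠ 0 :=
    prod_ne_zero_iff.2 fun j _ => sub_ne_zero.2 fun h =>
      Fin.castSucc_ne_last j (hs h).symm
  -- `∏ u_j`
  have h5 : (∏ j : Fin r, ux s x j.castSucc) * ∏ j : Fin r, Fd s j.castSucc =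
      (-1) ^ r * ∏ a, ∏ j : Fin r, (x a - s j.castSucc) := by
    rw [← prod_mul_distrib, prod_comm]
    have : ∀ j : Fin r, ux s x j.castSucc * Fd s j.castSucc =
        (-1) ^ r * ∏ a, (x a - s j.castSucc) := by
      intro j
      unfold ux
      rw [div_mul_cancel₀ _ (Fd_ne hs _)]
      have h : ∀ a, s j.castSucc - x a = (-1) * (x a - s j.castSucc) := fun a => by ring
      rw [prod_congr rfl fun a _ => h a, prod_mul_distrib]
      simp
    rw [prod_congr rfl fun j _ => this j, prod_mul_distrib, prod_const, card_univ,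
      Fintype.card_fin, ← pow_mul]
    congr 1
    have h1 : (-1 : ℂ) ^ (r * r) = ((-1) ^ r) ^ r := pow_mul _ _ _
    rcases Nat.even_or_odd r with h | h
    · rw [h.neg_one_pow, (h.mul_left r).neg_one_pow]
    · rw [h.neg_one_pow, (h.mul h).neg_one_pow]
  have h6 : ∏ j : Fin r, Fd s j.castSucc = (-1) ^ r *
      ((∏ j : Fin r, (s (Fin.last r) - s j.castSucc)) *
        (sgn ℂ r * (vdm fun j : Fin r => s j.castSucc) ^ 2)) := by
    rw [← prod_erase_eq (fun j : Fin r => s j.castSucc)]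
    have : ∀ j : Fin r, Fd s j.castSucc = (-1) * (s (Fin.last r) - s j.castSucc) *
        ∏ l ∈ univ.erase j, (s j.castSucc - s l.castSucc) := by
      intro j
      unfold Fd
      have hlast : Fin.last r ∈ (univ.erase j.castSucc : Finset (Fin (r + 1))) :=
        mem_erase.2 ⟨(Fin.castSucc_ne_last j).symm, mem_univ _⟩
      rw [← mul_prod_erase _ _ hlast]
      have h7 : (univ.erase j.castSucc : Finset (Fin (r + 1))).erase (Fin.last r) =
          (univ.erase j).map Fin.castSuccEmb := by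
        ext k
        rw [mem_erase, mem_erase, mem_map]
        constructor
        · rintro ⟨h1, h2, _⟩
          rcases Fin.eq_castSucc_or_eq_last k with ⟨k', rfl⟩ | h'
          · exact ⟨k', mem_erase.2 ⟨fun h => h2 (by rw [h]), mem_univ _⟩, rfl⟩
          · exact absurd h' h1
        · rintro ⟨k', hk', rfl⟩
          exact ⟨Fin.castSucc_ne_last k', fun h => (mem_erase.1 hk').1
            (Fin.castSucc_injective r h), mem_univ _⟩
      rw [h7, prod_map]
      have h8 : (s j.castSucc - s (Fin.last r)) = (-1) * (s (Fin.last r) - s j.castSucc) := by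
        ring
      rw [h8]
      rfl
    rw [prod_congr rfl fun j _ => this j, prod_mul_distrib, prod_mul_distrib]
    simp only [prod_const, card_univ, Fintype.card_fin]
    ring
  have hS := sgn_ne (F := ℂ) r
  have h10 : ((-1 : ℂ)) ^ r ≠ 0 := pow_ne_zero _ (by norm_num)
  have hPu : ∏ j : Fin r, ux s x j.castSucc ≠ 0 :=
    prod_ne_zero_iff.2 fun j _ => ux_ne hs hxs _
  rw [h6] at h5
  generalize (∏ j : Fin r, ux s x j.castSucc) = Pu at *
  generalize (∏ a, ∏ j : Fin r, (x a - s j.castSucc)) = G at *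
  generalize (∏ j : Fin r, (s (Fin.last r) - s j.castSucc)) = L at *
  generalize (vdm fun j : Fin r => s j.castSucc) = V at *
  generalize sgn ℂ r = S at *
  have h9 : Pu * (L * (S * V ^ 2)) = G := by
    have := h5
    have h11 : (-1 : ℂ) ^ r * (Pu * (L * (S * V ^ 2))) = (-1) ^ r * G := by
      rw [← this]
      ring
    exact mul_left_cancel₀ h10 h11
  rw [← h9]
  field_simp

/-- (X3) `det [u | E] = (-1)^r V(x) / V(s)`. -/
theorem X3 {s : Fin (r + 1) → ℂ} (hs : Function.Injective s) {x : Fin r → ℂ}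
    (hxs : ∀ a j, x a ≠ s j) :
    (Matrix.of fun l c : Fin (r + 1) =>
      (Fin.cons (ux s x l) (dux s x l) : Fin (r + 1) → ℂ) c).det =
      (-1) ^ r * (vdm x / vdm s) := by
  set M : Matrix (Fin (r + 1)) (Fin (r + 1)) ℂ := Matrix.of fun l c : Fin (r + 1) =>
      (Fin.cons (ux s x l) (dux s x l) : Fin (r + 1) → ℂ) c with hM
  -- replace the last row by the sum of all rows
  have h1 : (M.updateRow (Fin.last r) (∑ l, (1 : ℂ) • M l)).det = M.det := by
    rw [Matrix.det_updateRow_sum]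
    simp
  have h2 : (∑ l, (1 : ℂ) • M l) = (Pi.single 0 1 : Fin (r + 1) → ℂ) := by
    ext c
    rw [Finset.sum_apply]
    refine Fin.cases ?_ (fun a => ?_) c
    · simp only [hM, Matrix.of_apply, one_smul, Fin.cons_zero, Pi.single_eq_same]
      exact sum_ux hs x
    · simp only [hM, Matrix.of_apply, one_smul, Fin.cons_succ]
      rw [sum_dux hs x a, Pi.single_eq_of_ne (Fin.succ_ne_zero a)]
  rw [h2] at h1
  rw [← h1, Matrix.det_succ_row _ (Fin.last r), Finset.sum_eq_single 0]
  · rw [Matrix.updateRow_self, Pi.single_eq_same, mul_one, ← det_dux hs hxs]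
    have h3 : (M.updateRow (Fin.last r) (Pi.single 0 1)).submatrix (Fin.last r).succAbove
        (Fin.succAbove 0) = Matrix.of fun j a : Fin r => dux s x j.castSucc a := by
      ext j a
      rw [Matrix.submatrix_apply, Fin.succAbove_last, Fin.zero_succAbove, Matrix.updateRow_ne
        (Fin.castSucc_ne_last j)]
      simp only [hM, Matrix.of_apply, Fin.cons_succ]
    rw [h3]
    simp
  · intro c _ hc
    rw [Matrix.updateRow_self, Pi.single_eq_of_ne hc]
    ring
  · intro h
    exact absurd (mem_univ _) h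

end SE
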