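import Mathlib

/-!
# PROJECT SE, part S2, general signature: trees (helper81)

`u_j` (`j` a leaf of a binary tree `τ`) are complex numbers.  At a node `ν` let `U_L`, `U_R` be the sums
of `u` over the leaves to the left and to the right, `W = U_L + U_R`, `t = U_L / W`.
-/

set_option autoImplicit false

open Finset

noncomputable section

namespace SE

/-- Binary trees. -/
inductive Tr : Type
  | lf : Tr
  | nd : Tr → Tr → Tr

namespace Tr

/-- The leaves. -/
def L : Tr → Type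
  | lf => Unit
  | nd l r => l.L ⊕ r.L

/-- The nodes; `none` is the root. -/
def N : Tr → Type
  | lf => Empty
  | nd l r => Option (l.N ⊕ r.N)

def fL : (τ : Tr) → Fintype τ.L
  | lf => inferInstanceAs (Fintype Unit)
  | nd l r =>
    letI := fL l
    letI := fL r
    inferInstanceAs (Fintype (l.L ⊕ r.L))

instance (τ : Tr) : Fintype τ.L := fL τ

def dL : (τ : Tr) → DecidableEq τ.L
  | lf => inferInstanceAs (DecidableEq Unit)
  | nd l r =>
    letI := dL l
    letI := dL r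
    inferInstanceAs (DecidableEq (l.L ⊕ r.L))

instance (τ : Tr) : DecidableEq τ.L := dL τ

def fN : (τ : Tr) → Fintype τ.N
  | lf => inferInstanceAs (Fintype Empty)
  | nd l r =>
    letI := fN l
    letI := fN r
    inferInstanceAs (Fintype (Option (l.N ⊕ r.N)))

instance (τ : Tr) : Fintype τ.N := fN τ

def dN : (τ : Tr) → DecidableEq τ.N
  | lf => inferInstanceAs (DecidableEq Empty)
  | nd l r =>
    letI := dN l
    letI := dN r
    inferInstanceAs (DecidableEq (Option (l.N ⊕ r.N)))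

instance (τ : Tr) : DecidableEq τ.N := dN τ

/-- The sums of `u` over the leaves to the left and to the right of a node. -/
def lr {M : Type} [AddCommMonoid M] : (τ : Tr) → (τ.L → M) → τ.N → M × M
  | lf, _, ν => Empty.elim ν
  | nd _ _, u, none => (∑ j, u (Sum.inl j), ∑ j, u (Sum.inr j))
  | nd l _, u, some (Sum.inl ν) => lr l (fun j => u (Sum.inl j)) ν
  | nd _ r, u, some (Sum.inr ν) => lr r (fun j => u (Sum.inr j)) ν

/-- `W`: the sum over all leaves below the node. -/
def wt {M : Type} [AddCommMonoid M] (τ : Tr) (u : τ.L → M) (ν : τ.N) : M :=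
  (τ.lr u ν).1 + (τ.lr u ν).2

/-- `t = U_L / W`. -/
def tt (τ : Tr) (u : τ.L → ℂ) (ν : τ.N) : ℂ := (τ.lr u ν).1 / τ.wt u ν

/-- The derivative of `t` if `w` is the derivative of `u`. -/
def dt (τ : Tr) (u w : τ.L → ℂ) (ν : τ.N) : ℂ :=
  ((τ.lr w ν).1 * τ.wt u ν - (τ.lr u ν).1 * τ.wt w ν) / τ.wt u ν ^ 2

/-- Nothing vanishes: the leaves and the sums at the nodes. -/
def Ok (τ : Tr) (u : τ.L → ℂ) : Prop :=
  (∀ j, u j ≠ 0) ∧ (∑ j, u j ≠ 0) ∧
    ∀ ν, (τ.lr u ν).1 ≠ 0 ∧ (τ.lr u ν).2 ≠ 0 ∧ τ.wt u ν ≠ 0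

/-- `∂t_ν/∂u_j`, and a row of ones. -/
def Kt (τ : Tr) (u : τ.L → ℂ) : Matrix (Option τ.N) τ.L ℂ :=
  Matrix.of fun ν j => match ν with
    | none => 1
    | some ν => τ.dt u (Pi.single j 1) ν

/-- A bijection (nodes and one more point) → (leaves). -/
def eNL : (τ : Tr) → Option τ.N ≃ τ.L
  | lf =>
    { toFun := fun _ => ()
      invFun := fun _ => none
      left_inv := fun a => by rcases a with _ | a
                              · rfl
                              · exact Empty.elim a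
      right_inv := fun _ => rfl }
  | nd l r =>
    ({ toFun := fun a => match a with
        | none => Sum.inl none
        | some none => Sum.inr none
        | some (some (Sum.inl a)) => Sum.inl (some a)
        | some (some (Sum.inr a)) => Sum.inr (some a)
       invFun := fun a => match a with
        | Sum.inl none => none
        | Sum.inr none => some none
        | Sum.inl (some a) => some (some (Sum.inl a))
        | Sum.inr (some a) => some (some (Sum.inr a))
       left_inv := fun a => by rcases a with _ | _ | a | a <;> rfl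
       right_inv := fun a => by rcases a with (_ | a) | (_ | a) <;> rfl } :
      Option (Option (l.N ⊕ r.N)) ≃ Option l.N ⊕ Option r.N).trans (Equiv.sumCongr l.eNL r.eNL)

end Tr

/-! ## Statements -/

/-- (T1) The metric `∑ du_j^2 / u_j` is diagonal in the `t`.

PROOF: induction on the tree; at the root, with `U_L = tU`, `U_R = (1-t)U`:
`w_L w'_L / U_L + w_R w'_R / U_R = w w' / U + W^3 dt dt' / (U_L U_R)` (`field_simp; ring`). -/
def S_T1 : Prop :=
  ∀ (τ : Tr) (u w w' : τ.L → ℂ), τ.Ok u →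
    ∑ j, w j * w' j / u j = (∑ j, w j) * (∑ j, w' j) / (∑ j, u j) +
      ∑ ν, τ.wt u ν ^ 3 / ((τ.lr u ν).1 * (τ.lr u ν).2) * (τ.dt u w ν * τ.dt u w' ν)

/-- (T2) The determinant of `K`.

PROOF: induction.  For `nd l r` and the bijection `eNL`: rows `inl none = (1 ; 1)`,
`inr none = ∂t_root = (U_R/W² ; - U_L/W²)` (constant on the left and on the right leaves),
`inl (some a) = (∂t_a ; 0)`, `inr (some b) = (0 ; ∂t_b)`.  Add `W²/U_L` times the row `inr none` to the row
`inl none`: it becomes `(W/U_L ; 0)`; then the matrix is block lower triangular with blocks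
`Kt l` (row `none` times `W/U_L`) and `Kt r` (row `none` times `-U_L/W²`). So
`det K = - W⁻¹ det K_l det K_r`. -/
def S_T2 : Prop :=
  ∀ τ : Tr, ∃ ε : ℂ, (ε = 1 ∨ ε = -1) ∧ ∀ u : τ.L → ℂ, τ.Ok u →
    ((τ.Kt u).submatrix id τ.eNL).det = ε * ∏ ν, (τ.wt u ν)⁻¹

/-- (T3) The Jacobian matrix `dt_ν(w_a)` for vectors `w_a` with sum `0`.

PROOF: by (T2) for any bijection of the leaves (only a sign changes).  `K * [w_0 | … | w_(r-1) | e_last]`
has the rows `(0, …, 0, 1)` (row `none`) and `(dt u w_a ν, K ν last)`; `det [w | e_last]` is the minor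
without the last leaf. `dt` is linear in `w`: `dt u w ν = ∑_j w_j dt u (single j) ν`. -/
def S_T3 : Prop :=
  ∀ (r : ℕ) (τ : Tr) (eL : Fin (r + 1) ≃ τ.L) (eN : Fin r ≃ τ.N),
    ∃ ε : ℂ, (ε = 1 ∨ ε = -1) ∧ ∀ (u : τ.L → ℂ) (w : Fin r → τ.L → ℂ), τ.Ok u →
      (∀ a, ∑ j, w a j = 0) →
      (Matrix.of fun i a : Fin r => τ.dt u (w a) (eN i)).det =
        ε * (∏ ν, (τ.wt u ν)⁻¹) * (Matrix.of fun j a : Fin r => w a (eL j.castSucc)).det

/-- (T4) The product formula.

PROOF: induction (`U_L = t W`, `U_R = (1 - t) W`). -/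
def S_T4 : Prop :=
  ∀ (τ : Tr) (u : τ.L → ℂ) (b : τ.L → ℤ), τ.Ok u →
    ∏ j, u j ^ b j = (∑ j, u j) ^ (∑ j, b j) *
      ∏ ν, τ.tt u ν ^ (τ.lr b ν).1 * (1 - τ.tt u ν) ^ (τ.lr b ν).2

/-- (T5) Integer parts.  `n_j < m` natural numbers; a node is of type `Q` if
`U_L % m + U_R % m ≥ m` for the sums of `n`.

PROOF: induction: `(a + b) / m = a / m + b / m + (1 if a % m + b % m ≥ m)`. -/
def S_T5 : Prop :=
  ∀ (τ : Tr) (u : τ.L → ℂ) (n : τ.L → ℕ) (m : ℕ), 0 < m → (∀ j, n j < m) → τ.Ok u →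
    (∑ j, u j) ^ ((∑ j, n j) / m) *
      ∏ ν, τ.tt u ν ^ ((τ.lr n ν).1 / m) * (1 - τ.tt u ν) ^ ((τ.lr n ν).2 / m) =
    ∏ ν, if m ≤ (τ.lr n ν).1 % m + (τ.lr n ν).2 % m then τ.wt u ν else 1

/-- (T6) The number of nodes of type `Q`.

PROOF: the same induction. -/
def S_T6 : Prop :=
  ∀ (τ : Tr) (n : τ.L → ℕ) (m : ℕ), 0 < m → (∀ j, n j < m) →
    (∑ j, n j) / m = (univ.filter fun ν => m ≤ (τ.lr n ν).1 % m + (τ.lr n ν).2 % m).card

/-- (T7) Good trees. `b_j` integers not divisible by `m`, `k` of them, sum not divisible by `m`, not all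
`≡ m/2`; then there is a tree with leaves the `b_j` and all sums at the nodes not divisible by `m`.

PROOF: induction on `k`; `S` the sum, in `ZMod m`. `k = 1, 2`: clear. If some `b_i ≠ S`: remove it; the
rest has sum `≠ 0`; it is good unless all others are `m/2` and `k - 1 ≥ 3`; in this exceptional case
`k - 1` is odd (the sum of the rest is not `0`), `S = b_i + m/2 ≠ m/2`, remove one of the `m/2` instead (the
rest contains `b_i ≠ m/2`, since not all are `m/2`). If all `b_i = S = x`: `(k - 1) x = 0`, `2 x ≠ 0`; if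
`k = 2` then `x = 0`, impossible; split `2 + (k - 2)`: the sums are `2x ≠ 0` and `(k-2) x = -x ≠ 0`,
and `x ≠ m/2`. -/
def S_T7 : Prop :=
  ∀ (m r : ℕ) (b : Fin (r + 1) → ℤ), (∀ j, ¬ (m : ℤ) ∣ b j) → ¬ (m : ℤ) ∣ ∑ j, b j →
    (∃ j, ¬ (m : ℤ) ∣ 2 * b j) → ∃ (τ : Tr) (e : Fin (r + 1) ≃ τ.L),
      ∀ ν, ¬ (m : ℤ) ∣ (τ.lr (b ∘ e.symm) ν).1 ∧ ¬ (m : ℤ) ∣ (τ.lr (b ∘ e.symm) ν).2 ∧
        ¬ (m : ℤ) ∣ τ.wt (b ∘ e.symm) ν

end SE
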