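import Pool.Agent.Lib.SE.S2.Sub

/-!
# PROJECT SE: `u_j(x) = ∏_a (s_j - x_a) / F'(s_j)`, `U_i = u_0 + ... + u_i`, `t_i = U_i / U_{i+1}`
-/

set_option autoImplicit false

open Finset Polynomial

noncomputable section

namespace SE

variable {r : ℕ}

/-- `F'(s_j) = ∏_{l ≠ j} (s_j - s_l)` -/
def Fd (s : Fin (r + 1) → ℂ) (j : Fin (r + 1)) : ℂ := ∏ l ∈ univ.erase j, (s j - s l)

/-- `u_j(x) = ∏_a (s_j - x_a) / F'(s_j)` -/
def ux (s : Fin (r + 1) → ℂ) (x : Fin r → ℂ) (j : Fin (r + 1)) : ℂ :=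
  (∏ a, (s j - x a)) / Fd s j

/-- `U_n(x) = ∑_{j ≤ n} u_j(x)` -/
def Ux (s : Fin (r + 1) → ℂ) (x : Fin r → ℂ) (n : ℕ) : ℂ :=
  ∑ j : Fin (r + 1), if j.1 ≤ n then ux s x j else 0

/-- `t_i(x) = U_i(x) / U_{i+1}(x)` -/
def tx (s : Fin (r + 1) → ℂ) (x : Fin r → ℂ) (i : Fin r) : ℂ := Ux s x i / Ux s x (i + 1)

lemma Fd_ne {s : Fin (r + 1) → ℂ} (hs : Function.Injective s) (j : Fin (r + 1)) : Fd s j ≠ 0 := by
  unfold Fd
  rw [Finset.prod_ne_zero_iff]
  intro l hl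
  rw [Finset.mem_erase] at hl
  exact sub_ne_zero.mpr fun h => hl.1 (hs h).symm

/-- Lagrange: `∑ u_j(x) = 1`. -/
theorem sum_ux {s : Fin (r + 1) → ℂ} (hs : Function.Injective s) (x : Fin r → ℂ) :
    ∑ j, ux s x j = 1 := by
  have hm : ∀ a ∈ (univ : Finset (Fin r)), (X - C (x a) : ℂ[X]).Monic := fun a _ =>
    monic_X_sub_C _
  have hmon : (∏ a : Fin r, (X - C (x a) : ℂ[X])).Monic := monic_prod_of_monic _ _ hm
  have hdeg : (∏ a : Fin r, (X - C (x a) : ℂ[X])).degree = (r : WithBot ℕ) := by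
    rw [degree_eq_natDegree hmon.ne_zero, natDegree_prod_of_monic _ _ hm]
    simp
  have h := Lagrange.leadingCoeff_eq_sum (s := (univ : Finset (Fin (r + 1)))) (v := s)
    hs.injOn (P := ∏ a : Fin r, (X - C (x a) : ℂ[X])) (by rw [hdeg]; simp)
  rw [hmon.leadingCoeff] at h
  rw [h]
  refine Finset.sum_congr rfl fun j _ => ?_
  unfold ux Fd
  rw [eval_prod]
  simp

lemma Ux_last {s : Fin (r + 1) → ℂ} (hs : Function.Injective s) (x : Fin r → ℂ) :
    Ux s x r = 1 := by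
  unfold Ux
  rw [← sum_ux hs x]
  refine Finset.sum_congr rfl fun j _ => ?_
  rw [if_pos (by omega)]

lemma Ux_zero (s : Fin (r + 1) → ℂ) (x : Fin r → ℂ) : Ux s x 0 = ux s x 0 := by
  unfold Ux
  rw [Fin.sum_univ_succ]
  simp

lemma Ux_succ (s : Fin (r + 1) → ℂ) (x : Fin r → ℂ) (i : Fin r) :
    Ux s x (i + 1) = Ux s x i + ux s x i.succ := by
  unfold Ux
  have h : ∀ j : Fin (r + 1), (if j.1 ≤ i.1 + 1 then ux s x j else 0) =
      (if j.1 ≤ i.1 then ux s x j else 0) + (if j = i.succ then ux s x i.succ else 0) := by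
    intro j
    by_cases h1 : j = i.succ
    · subst h1
      simp
    · have : j.1 ≠ i.1 + 1 := fun h => h1 (Fin.ext (by simpa using h))
      rw [if_neg h1, add_zero]
      by_cases h2 : j.1 ≤ i.1
      · rw [if_pos h2, if_pos (by omega)]
      · rw [if_neg h2, if_neg (by omega)]
  rw [Finset.sum_congr rfl (fun j _ => h j), Finset.sum_add_distrib]
  simp

lemma tp_tx {s : Fin (r + 1) → ℂ} (hs : Function.Injective s) {x : Fin r → ℂ}
    (hU : ∀ n ≤ r, Ux s x n ≠ 0) (n : ℕ) (hn : n ≤ r) : tp (tx s x) n = Ux s x n := by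
  have key : ∀ d n : ℕ, n + d = r → tp (tx s x) n = Ux s x n := by
    intro d
    induction d with
    | zero =>
      intro n hn
      have : n = r := by omega
      subst this
      rw [tp_last, Ux_last hs]
    | succ d ih =>
      intro n hn
      have h := tp_succ (tx s x) ⟨n, by omega⟩
      simp only at h
      rw [h, ih (n + 1) (by omega), tx]
      simp only
      rw [div_mul_cancel₀]
      exact hU _ (by omega)
  exact key (r - n) n (by omega)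

/-- `u_j(x) = u_j(t(x))` -/
theorem tu_tx {s : Fin (r + 1) → ℂ} (hs : Function.Injective s) {x : Fin r → ℂ}
    (hU : ∀ n ≤ r, Ux s x n ≠ 0) (j : Fin (r + 1)) : tu (tx s x) j = ux s x j := by
  refine Fin.cases ?_ (fun i => ?_) j
  · rw [tu_zero, tp_tx hs hU 0 (Nat.zero_le _), Ux_zero]
  · rw [tu_succ', tp_tx hs hU _ (by omega), tp_tx hs hU _ (by omega), Ux_succ]
    ring

/-- `∏ u_j^{b_j} = ∏ t_i^{c_i} (1 - t_i)^{b_{i+1}}` -/
theorem prod_ux_pow {s : Fin (r + 1) → ℂ} (hs : Function.Injective s) {x : Fin r → ℂ}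
    (hU : ∀ n ≤ r, Ux s x n ≠ 0) (b : Fin (r + 1) → ℕ) :
    ∏ j : Fin (r + 1), ux s x j ^ b j =
      ∏ i : Fin r, tx s x i ^ cc b i * (1 - tx s x i) ^ b i.succ := by
  rw [← prod_tu_pow]
  refine Finset.prod_congr rfl fun j _ => ?_
  rw [tu_tx hs hU]

/-- `∏_a ∏_j (x_a - s_j)^{b_j} = ∏_j ((-1)^r F'(s_j))^{b_j} ∏_j u_j^{b_j}` -/
theorem prod_f {s : Fin (r + 1) → ℂ} (hs : Function.Injective s) (x : Fin r → ℂ)
    (b : Fin (r + 1) → ℕ) :
    ∏ a, ∏ j, (x a - s j) ^ b j =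
      (∏ j, ((-1) ^ r * Fd s j) ^ b j) * ∏ j, ux s x j ^ b j := by
  rw [Finset.prod_comm, ← Finset.prod_mul_distrib]
  refine Finset.prod_congr rfl fun j _ => ?_
  rw [Finset.prod_pow, ← mul_pow]
  congr 1
  unfold ux
  rw [mul_div_assoc', mul_right_comm, mul_div_assoc, div_self (Fd_ne hs j), mul_one]
  have h : ∀ a, x a - s j = (-1) * (s j - x a) := fun a => by ring
  rw [Finset.prod_congr rfl (fun a _ => h a), Finset.prod_mul_distrib]
  simp

/-- The constant `K` in `∏ f(x_a) = K ∏ t_i^{c_i} (t_i - 1)^{b_{i+1}}`. -/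
def KK (s : Fin (r + 1) → ℂ) (b : Fin (r + 1) → ℕ) : ℂ :=
  (∏ j, ((-1) ^ r * Fd s j) ^ b j) * ∏ i : Fin r, (-1) ^ b i.succ

lemma KK_ne {s : Fin (r + 1) → ℂ} (hs : Function.Injective s) (b : Fin (r + 1) → ℕ) :
    KK s b ≠ 0 := by
  unfold KK
  refine mul_ne_zero (Finset.prod_ne_zero_iff.mpr fun j _ => pow_ne_zero _ (mul_ne_zero ?_
    (Fd_ne hs j))) (Finset.prod_ne_zero_iff.mpr fun i _ => ?_)
  · exact pow_ne_zero _ (by norm_num)
  · exact pow_ne_zero _ (by norm_num)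

/-- `∏ f(x_a) = K ∏ t_i^{c_i} (t_i - 1)^{b_{i+1}}` -/
theorem prod_f_tx {s : Fin (r + 1) → ℂ} (hs : Function.Injective s) {x : Fin r → ℂ}
    (hU : ∀ n ≤ r, Ux s x n ≠ 0) (b : Fin (r + 1) → ℕ) :
    ∏ a, ∏ j, (x a - s j) ^ b j =
      KK s b * ∏ i : Fin r, tx s x i ^ cc b i * (tx s x i - 1) ^ b i.succ := by
  rw [prod_f hs, prod_ux_pow hs hU, KK, mul_assoc, ← Finset.prod_mul_distrib]
  congr 1
  refine Finset.prod_congr rfl fun i _ => ?_
  have h : (1 - tx s x i) = (-1) * (tx s x i - 1) := by ring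
  rw [h, mul_pow]
  ring

end SE
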