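import Mathlib

/-!
# PROJECT SE: the substitution `u ↔ t` and the determinant of the cycle (algebra)
-/

set_option autoImplicit false

open Finset Polynomial

noncomputable section

namespace SE

variable {r : ℕ}

/-- `P_j(t) = ∏_{i ≥ j} t_i`. -/
def tp (t : Fin r → ℂ) (j : ℕ) : ℂ := ∏ i : Fin r, if j ≤ i.1 then t i else 1

/-- `w_0 = 1`, `w_{j+1} = 1 - t_j`. -/
def tw (t : Fin r → ℂ) : Fin (r + 1) → ℂ := Fin.cons 1 (fun j => 1 - t j)

/-- `u_0 = P_0`, `u_{j+1} = (1 - t_j) P_{j+1}`. -/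
def tu (t : Fin r → ℂ) (j : Fin (r + 1)) : ℂ := tw t j * tp t j

/-- `c_i = b_0 + … + b_i`. -/
def cc (b : Fin (r + 1) → ℕ) (i : Fin r) : ℕ := ∑ j : Fin (r + 1), if j.1 ≤ i.1 then b j else 0

lemma tp_last (t : Fin r → ℂ) : tp t r = 1 := by
  unfold tp
  apply Finset.prod_eq_one
  intro i _
  rw [if_neg (by omega)]

lemma tp_succ (t : Fin r → ℂ) (j : Fin r) : tp t j = t j * tp t (j + 1) := by
  unfold tp
  have h : ∀ i : Fin r, (if j.1 ≤ i.1 then t i else 1) =
      (if i = j then t j else 1) * (if j.1 + 1 ≤ i.1 then t i else 1) := by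
    intro i
    by_cases h1 : i = j
    · subst h1
      simp
    · have : i.1 ≠ j.1 := fun h => h1 (Fin.ext h)
      rw [if_neg h1, one_mul]
      by_cases h2 : j.1 ≤ i.1
      · rw [if_pos h2, if_pos (by omega)]
      · rw [if_neg h2, if_neg (by omega)]
  rw [Finset.prod_congr rfl (fun i _ => h i), Finset.prod_mul_distrib]
  simp

lemma tu_zero (t : Fin r → ℂ) : tu t 0 = tp t 0 := by
  simp [tu, tw]

lemma tu_succ (t : Fin r → ℂ) (j : Fin r) : tu t j.succ = (1 - t j) * tp t (j + 1) := by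
  simp [tu, tw]

lemma tu_succ' (t : Fin r → ℂ) (j : Fin r) : tu t j.succ = tp t (j + 1) - tp t j := by
  rw [tu_succ, tp_succ]; ring

lemma sum_tu (t : Fin r → ℂ) : ∑ j, tu t j = 1 := by
  rw [Fin.sum_univ_succ, tu_zero]
  have h : ∀ j : Fin r, tu t j.succ = (fun k : ℕ => tp t (k + 1) - tp t k) j := fun j =>
    tu_succ' t j
  rw [Finset.sum_congr rfl (fun j _ => h j),
    Fin.sum_univ_eq_sum_range (fun k : ℕ => tp t (k + 1) - tp t k) r, Finset.sum_range_sub,
    tp_last]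
  ring

lemma prod_tp_pow (t : Fin r → ℂ) (b : Fin (r + 1) → ℕ) :
    ∏ j : Fin (r + 1), tp t j ^ b j = ∏ i : Fin r, t i ^ cc b i := by
  unfold tp cc
  simp_rw [← Finset.prod_pow, ← Finset.prod_pow_eq_pow_sum]
  rw [Finset.prod_comm]
  refine Finset.prod_congr rfl fun i _ => Finset.prod_congr rfl fun j _ => ?_
  split_ifs with h
  · rfl
  · simp

lemma prod_tw_pow (t : Fin r → ℂ) (b : Fin (r + 1) → ℕ) :
    ∏ j : Fin (r + 1), tw t j ^ b j = ∏ i : Fin r, (1 - t i) ^ b i.succ := by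
  rw [Fin.prod_univ_succ]
  simp [tw]

/-- `∏ u_j^{b_j} = ∏ t_i^{c_i} (1 - t_i)^{b_{i+1}}` -/
theorem prod_tu_pow (t : Fin r → ℂ) (b : Fin (r + 1) → ℕ) :
    ∏ j : Fin (r + 1), tu t j ^ b j = ∏ i : Fin r, t i ^ cc b i * (1 - t i) ^ b i.succ := by
  unfold tu
  simp_rw [mul_pow]
  rw [Finset.prod_mul_distrib, Finset.prod_mul_distrib, prod_tp_pow, prod_tw_pow]
  ring

lemma cc_one (i : Fin r) : cc (fun _ : Fin (r + 1) => 1) i = i.1 + 1 := by
  unfold cc
  rw [Fin.sum_univ_eq_sum_range (fun j => if j ≤ i.1 then 1 else 0), Finset.sum_ite]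
  simp only [Finset.sum_const, smul_eq_mul, mul_one, mul_zero, add_zero]
  have : (Finset.range (r + 1)).filter (fun x => x ≤ i.1) = Finset.range (i.1 + 1) := by
    ext x
    simp only [Finset.mem_filter, Finset.mem_range]
    omega
  rw [this, Finset.card_range]

theorem prod_tu (t : Fin r → ℂ) :
    ∏ j : Fin (r + 1), tu t j = ∏ i : Fin r, t i ^ (i.1 + 1) * (1 - t i) := by
  have h := prod_tu_pow t (fun _ => 1)
  simp only [pow_one, cc_one] at h
  exact h

end SE
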